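import Pool.Agent.Q240.LH.Rect

/-! # Functions which are close to a slowly growing function on a short segment -/

set_option autoImplicit false

namespace Pool.Agent.Q97.PA

open Complex Metric Set
open Q240.LH (rect_max)

lemma re_inv_add {δ : ℝ} (s : ℂ) : (1 / (s + (δ : ℂ))).re = (s.re + δ) / ((s.re + δ) ^ 2 + s.im ^ 2) := by
  rw [one_div, inv_re, normSq_apply]
  simp only [add_re, ofReal_re, add_im, ofReal_im, add_zero]
  rw [sq, sq]

/-- two constants in a rectangle, with a segment of the left side -/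
theorem half_two {δ : ℝ} (hδ : 0 < δ) (hδ1 : δ ≤ 1 / 8) {h : ℝ} (hh0 : 0 < h) (hh : 2 * δ ≤ h ^ 2) {F : ℂ → ℂ}
    (hF : ∀ s : ℂ, 0 ≤ s.re → s.re ≤ 2 → |s.im| ≤ 2 → DifferentiableAt ℂ F s) {M m κ : ℝ} (hκ : 0 ≤ κ)
    (hM : ∀ s : ℂ, 0 ≤ s.re → s.re ≤ 2 → |s.im| ≤ 2 → ‖F s‖ ≤ Real.exp M)
    (hm : ∀ s : ℂ, s.re = 0 → |s.im| ≤ h → ‖F s‖ ≤ Real.exp m) (hmM : m + κ / δ ≤ M)
    {s : ℂ} (h2 : ‖s - 9 / 8‖ ≤ 1 / 8) : ‖F s‖ ≤ Real.exp (M - κ / 35) := by
  have hre : |s.re - 9 / 8| ≤ 1 / 8 := by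
    have h3 := (abs_re_le_norm (s - 9 / 8)).trans h2
    have e : (s - 9 / 8).re = s.re - 9 / 8 := by simp
    rwa [e] at h3
  have him : |s.im| ≤ 1 / 8 := by
    have h3 := (abs_im_le_norm (s - 9 / 8)).trans h2
    have e : (s - 9 / 8).im = s.im := by simp
    rwa [e] at h3
  rw [abs_le] at hre him
  obtain ⟨u, hu⟩ : ∃ u : ℂ → ℝ, u = fun z => (z.re + δ) / ((z.re + δ) ^ 2 + z.im ^ 2) := ⟨_, rfl⟩
  obtain ⟨f, hf⟩ : ∃ f : ℂ → ℂ, f = fun z => F z * cexp ((κ : ℂ) * (1 / (z + (δ : ℂ)) - 1 / 2)) := ⟨_, rfl⟩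
  have hfn : ∀ z : ℂ, ‖f z‖ = ‖F z‖ * Real.exp (κ * (u z - 1 / 2)) := by
    intro z
    rw [hf, hu]
    simp only
    rw [norm_mul, Complex.norm_exp, re_ofReal_mul, sub_re, re_inv_add]
    norm_num
  have hkey : ‖f s‖ ≤ Real.exp M := by
    refine rect_max (x0 := 0) (x1 := 2) (y0 := -2) (y1 := 2) (by norm_num) (by norm_num) ?_ ?_
      (by linarith) (by linarith) (by linarith) (by linarith)
    · intro z h3 h4 h5 h6
      rw [hf]
      have h7 : DifferentiableAt ℂ F z := hF z h3 h4 (by rw [abs_le]; exact ⟨h5, h6⟩)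
      have h8 : z + (δ : ℂ) ≠ 0 := by
        intro h0
        have := congrArg Complex.re h0
        simp at this
        linarith
      have h9 : DifferentiableAt ℂ (fun z : ℂ => cexp ((κ : ℂ) * (1 / (z + (δ : ℂ)) - 1 / 2))) z := by
        fun_prop (disch := exact h8)
      exact h7.mul h9
    · intro z h3 h4 h5 h6 h7
      rw [hfn]
      have hz : |z.im| ≤ 2 := by rw [abs_le]; exact ⟨h5, h6⟩
      have hden : 0 < (z.re + δ) ^ 2 + z.im ^ 2 := by positivity
      have hgen : u z ≤ 1 / 2 → ‖F z‖ * Real.exp (κ * (u z - 1 / 2)) ≤ Real.exp M := by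
        intro h8
        have h9 : Real.exp (κ * (u z - 1 / 2)) ≤ 1 :=
          Real.exp_le_one_iff.2 (mul_nonpos_of_nonneg_of_nonpos hκ (by linarith))
        calc _ ≤ Real.exp M * 1 := mul_le_mul (hM z h3 h4 hz) h9 (Real.exp_pos _).le (Real.exp_pos _).le
          _ = _ := mul_one _
      rcases h7 with h7 | h7 | h7
      · by_cases h8 : |z.im| ≤ h
        · have h9 : u z ≤ 1 / δ := by
            rw [hu]
            simp only
            rw [h7, zero_add, div_le_div_iff₀ (by positivity) hδ]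
            nlinarith [sq_nonneg z.im]
          have h10 : κ * (u z - 1 / 2) ≤ κ / δ := by
            have : κ * (u z - 1 / 2) ≤ κ * (1 / δ) := mul_le_mul_of_nonneg_left (by linarith) hκ
            calc _ ≤ _ := this
              _ = _ := by rw [mul_one_div]
          calc _ ≤ Real.exp m * Real.exp (κ / δ) :=
                mul_le_mul (hm z h7 h8) (Real.exp_le_exp.2 h10) (Real.exp_pos _).le (Real.exp_pos _).le
            _ = Real.exp (m + κ / δ) := (Real.exp_add _ _).symm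
            _ ≤ _ := Real.exp_le_exp.2 hmM
        · apply hgen
          push Not at h8
          rw [hu]
          simp only
          rw [h7, zero_add, div_le_div_iff₀ (by positivity) (by norm_num)]
          have h9 : h ^ 2 ≤ z.im ^ 2 := by
            rw [← sq_abs z.im]
            exact pow_le_pow_left₀ hh0.le h8.le 2
          nlinarith [sq_nonneg δ]
      · apply hgen
        rw [hu]
        simp only
        rw [h7, div_le_div_iff₀ (by positivity) (by norm_num)]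
        nlinarith [sq_nonneg z.im]
      · apply hgen
        rw [hu]
        simp only
        have h9 : z.im ^ 2 = 4 := by rcases h7 with h7 | h7 <;> rw [h7] <;> norm_num
        rw [h9, div_le_div_iff₀ (by positivity) (by norm_num)]
        nlinarith [sq_nonneg (z.re + δ - 1)]
  rw [hfn] at hkey
  have hus : 64 / 121 ≤ u s := by
    rw [hu]
    simp only
    rw [div_le_div_iff₀ (by norm_num) (by nlinarith [sq_nonneg s.im])]
    nlinarith [sq_nonneg s.im, sq_nonneg (s.re + δ)]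
  have h3 : κ / 35 ≤ κ * (u s - 1 / 2) := by
    rw [div_eq_mul_inv]
    apply mul_le_mul_of_nonneg_left _ hκ
    linarith
  have h4 : ‖F s‖ = ‖F s‖ * Real.exp (κ * (u s - 1 / 2)) * Real.exp (-(κ * (u s - 1 / 2))) := by
    rw [mul_assoc, ← Real.exp_add, add_neg_cancel, Real.exp_zero, mul_one]
  rw [h4]
  calc _ ≤ Real.exp M * Real.exp (-(κ * (u s - 1 / 2))) := mul_le_mul_of_nonneg_right hkey (Real.exp_pos _).le
    _ = Real.exp (M - κ * (u s - 1 / 2)) := by
        rw [← Real.exp_add]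
        congr 1
    _ ≤ _ := Real.exp_le_exp.2 (by linarith)

lemma exp_three : (20 : ℝ) ≤ Real.exp 3 := by
  have h1 := Real.exp_one_gt_d9
  have h2 : Real.exp 3 = Real.exp 1 ^ 3 := by
    rw [← Real.exp_nat_mul]
    norm_num
  rw [h2]
  calc (20 : ℝ) ≤ 2.7182818283 ^ 3 := by norm_num
    _ ≤ _ := pow_le_pow_left₀ (by norm_num) h1.le 3

lemma two_le_exp : (2 : ℝ) ≤ Real.exp 1 := by
  have h1 := Real.exp_one_gt_d9
  linarith

/-- slow growth -/
def Dbl (D : ℝ) (g : ℂ → ℂ) : Prop := Differentiable ℂ g ∧ ∀ (c : ℂ) (M : ℝ), (∀ z, ‖z - c‖ ≤ 1 / 8 → ‖g z‖ ≤ M) →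
  ∀ z, ‖z - c‖ ≤ 5 / 2 → ‖g z‖ ≤ M * Real.exp D

/-- the core inequality -/
theorem core {δ : ℝ} (hδ : 0 < δ) (hδ1 : δ ≤ 1 / 8) {h : ℝ} (hh0 : 0 < h) (hh1 : h ≤ 1) (hh : 2 * δ ≤ h ^ 2)
    {F : ℂ → ℂ} (hF : ∀ s : ℂ, 0 ≤ s.re → s.re ≤ 2 → |s.im| ≤ 2 → DifferentiableAt ℂ F s) {M m : ℝ} (hmM : m ≤ M)
    (hM : ∀ s : ℂ, 0 ≤ s.re → s.re ≤ 2 → |s.im| ≤ 2 → ‖F s‖ ≤ Real.exp M)
    (hr : ∀ s : ℂ, ‖s - 9 / 8‖ ≤ 1 / 8 → ‖F s‖ ≤ Real.exp m) (g : ℂ → ℂ) {D : ℝ} (hD : 0 ≤ D) (hg : Dbl D g)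
    (hp : ∀ s : ℂ, s.re = 0 → |s.im| ≤ h → ‖F s - g s‖ ≤ Real.exp m)
    {s : ℂ} (h1 : s.re = 0) (h2 : |s.im| ≤ h) :
    ‖F s‖ ≤ Real.exp ((1 - δ / 35) * M + δ / 35 * m + 35 * (D + 3) / δ) := by
  obtain ⟨w, hw⟩ : ∃ w : ℝ, w = δ / 35 := ⟨_, rfl⟩
  have hw0 : 0 < w := by rw [hw]; positivity
  have hw1 : w ≤ 1 := by rw [hw]; linarith
  obtain ⟨z0, hz0, hz0m⟩ := (isCompact_closedBall (9 / 8 : ℂ) (1 / 8 : ℝ)).exists_isMaxOn
    ⟨9 / 8, mem_closedBall_self (by norm_num)⟩ (hg.1.continuous.norm.continuousOn)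
  obtain ⟨A, hA⟩ : ∃ A : ℝ, A = ‖g z0‖ := ⟨_, rfl⟩
  have hA0 : 0 ≤ A := by rw [hA]; exact norm_nonneg _
  have hAd : ∀ z : ℂ, ‖z - 9 / 8‖ ≤ 1 / 8 → ‖g z‖ ≤ A := by
    intro z hz
    rw [hA]
    exact hz0m (show z ∈ closedBall (9 / 8 : ℂ) (1 / 8 : ℝ) by rw [mem_closedBall, dist_eq_norm]; exact hz)
  have hAr : ∀ z : ℂ, 0 ≤ z.re → z.re ≤ 2 → |z.im| ≤ 2 → ‖g z‖ ≤ A * Real.exp D := by
    intro z h3 h4 h5
    refine hg.2 (9 / 8) A hAd z ?_
    rw [← sq_le_sq₀ (norm_nonneg _) (by norm_num), ← normSq_eq_norm_sq, normSq_apply]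
    have e1 : (z - 9 / 8).re = z.re - 9 / 8 := by simp
    have e2 : (z - 9 / 8).im = z.im := by simp
    rw [e1, e2]
    have h9 : z.im * z.im ≤ 4 := by
      have := abs_le.1 h5
      nlinarith
    nlinarith
  obtain ⟨S, hS⟩ : ∃ S : ℝ, S = max (A * Real.exp D) (Real.exp M) := ⟨_, rfl⟩
  have hSM : Real.exp M ≤ S := by rw [hS]; exact le_max_right _ _
  have hSA : A * Real.exp D ≤ S := by rw [hS]; exact le_max_left _ _
  have hS0 : 0 < S := (Real.exp_pos _).trans_le hSM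
  obtain ⟨σ, hσ⟩ : ∃ σ : ℝ, σ = Real.log S := ⟨_, rfl⟩
  have hσS : Real.exp σ = S := by rw [hσ, Real.exp_log hS0]
  have hσM : M ≤ σ := by
    rw [← Real.exp_le_exp, hσS]
    exact hSM
  have htwo : ∀ z : ℂ, ‖z - 9 / 8‖ ≤ 1 / 8 → ‖F z - g z‖ ≤ Real.exp ((σ + 1) - (σ + 1 - m) * δ / 35) := by
    intro z hz
    refine half_two hδ hδ1 hh0 hh (F := fun z => F z - g z) (M := σ + 1) (m := m) (κ := (σ + 1 - m) * δ) ?_ ?_ ?_ hp ?_ hz
    · intro z h3 h4 h5
      exact (hF z h3 h4 h5).sub (hg.1 z)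
    · exact mul_nonneg (by linarith) hδ.le
    · intro z h3 h4 h5
      have h6 := hM z h3 h4 h5
      have h7 := hAr z h3 h4 h5
      calc ‖F z - g z‖ ≤ ‖F z‖ + ‖g z‖ := norm_sub_le _ _
        _ ≤ S + S := by linarith
        _ = S * 2 := by ring
        _ ≤ Real.exp σ * Real.exp 1 := by
            rw [hσS]
            exact mul_le_mul_of_nonneg_left two_le_exp hS0.le
        _ = _ := (Real.exp_add _ _).symm
    · rw [mul_div_assoc, div_self hδ.ne']
      linarith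
  have hAb : A ≤ Real.exp (2 + (1 - w) * σ + w * m) := by
    have h3 : ‖z0 - 9 / 8‖ ≤ 1 / 8 := by rw [← dist_eq_norm]; exact hz0
    have h4 := htwo z0 h3
    have h5 := hr z0 h3
    have h6 : A ≤ ‖F z0‖ + ‖F z0 - g z0‖ := by
      rw [hA]
      calc ‖g z0‖ = ‖F z0 - (F z0 - g z0)‖ := by rw [sub_sub_cancel]
        _ ≤ _ := norm_sub_le _ _
    have e1 : (σ + 1) - (σ + 1 - m) * δ / 35 = (1 - w) * (σ + 1) + w * m := by rw [hw]; ring
    rw [e1] at h4
    have h7 : Real.exp m ≤ Real.exp ((1 - w) * (σ + 1) + w * m) := by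
      apply Real.exp_le_exp.2
      nlinarith
    calc A ≤ Real.exp ((1 - w) * (σ + 1) + w * m) * 2 := by linarith
      _ ≤ Real.exp ((1 - w) * (σ + 1) + w * m) * Real.exp 1 :=
          mul_le_mul_of_nonneg_left two_le_exp (Real.exp_pos _).le
      _ = Real.exp ((1 - w) * (σ + 1) + w * m + 1) := (Real.exp_add _ _).symm
      _ ≤ _ := Real.exp_le_exp.2 (by linarith)
  have hσb : σ ≤ M + (D + 2) / w := by
    have h3 : 0 ≤ (D + 2) / w := by positivity
    rcases le_total (A * Real.exp D) (Real.exp M) with h4 | h4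
    · rw [max_eq_right h4] at hS
      have : σ = M := by rw [hσ, hS, Real.log_exp]
      linarith
    · rw [max_eq_left h4] at hS
      have h5 : Real.exp σ ≤ Real.exp (2 + (1 - w) * σ + w * m + D) := by
        rw [hσS, hS, Real.exp_add]
        exact mul_le_mul_of_nonneg_right hAb (Real.exp_pos _).le
      have h6 := Real.exp_le_exp.1 h5
      have h8 : σ ≤ m + (D + 2) / w := by
        rw [← sub_le_iff_le_add', le_div_iff₀ hw0]
        linarith
      linarith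
  have hpI : ‖g s‖ ≤ Real.exp ((1 - w) * M + w * m + (D + 2) / w) := by
    have h3 := hAr s h1.ge (by rw [h1]; norm_num) (h2.trans (by linarith))
    refine h3.trans ?_
    calc A * Real.exp D ≤ Real.exp (2 + (1 - w) * σ + w * m) * Real.exp D :=
          mul_le_mul_of_nonneg_right hAb (Real.exp_pos _).le
      _ = Real.exp (2 + (1 - w) * σ + w * m + D) := (Real.exp_add _ _).symm
      _ ≤ _ := by
          apply Real.exp_le_exp.2
          have h4 : (1 - w) * σ ≤ (1 - w) * (M + (D + 2) / w) :=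
            mul_le_mul_of_nonneg_left hσb (by linarith)
          have h5 : (1 - w) * (M + (D + 2) / w) = (1 - w) * M + (D + 2) / w - (D + 2) := by
            field_simp
            ring
          linarith
  have hfin : Real.exp m ≤ Real.exp ((1 - w) * M + w * m + (D + 2) / w) := by
    apply Real.exp_le_exp.2
    have h3 : 0 ≤ (D + 2) / w := by positivity
    nlinarith
  have h8 : ‖F s‖ ≤ ‖F s - g s‖ + ‖g s‖ := by
    calc ‖F s‖ = ‖(F s - g s) + g s‖ := by rw [sub_add_cancel]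
      _ ≤ _ := norm_add_le _ _
  have h9 := hp s h1 h2
  calc ‖F s‖ ≤ Real.exp ((1 - w) * M + w * m + (D + 2) / w) * 2 := by linarith
    _ ≤ Real.exp ((1 - w) * M + w * m + (D + 2) / w) * Real.exp 1 :=
        mul_le_mul_of_nonneg_left two_le_exp (Real.exp_pos _).le
    _ = Real.exp ((1 - w) * M + w * m + (D + 2) / w + 1) := (Real.exp_add _ _).symm
    _ ≤ _ := by
        apply Real.exp_le_exp.2
        have h10 : (D + 2) / w + 1 ≤ 35 * (D + 3) / δ := by
          have e1 : 35 * (D + 3) / δ = (D + 3) / w := by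
            rw [hw]
            field_simp
          rw [e1, div_add' _ _ _ hw0.ne', div_le_div_iff_of_pos_right hw0]
          linarith
        rw [← hw]
        linarith

end Pool.Agent.Q97.PA
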