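import Pool.Agent.Q97.PA.A

/-! # Exponential polynomials grow slowly from a small disc to a large one -/

set_option autoImplicit false

namespace Pool.Agent.Q97.PA

open Complex Polynomial Metric Set Filter Topology

/-- solutions of linear differential equations with constant coefficients, characteristic roots at most `l` -/
def EP (l : ℝ) : ℕ → (ℂ → ℂ) → Prop
  | 0, g => ∀ z, g z = 0
  | n + 1, g => Differentiable ℂ g ∧ ∃ a : ℂ, ‖a‖ ≤ l ∧ EP l n (fun z => deriv g z - a * g z)

/-- the exponential generating polynomial -/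
noncomputable def gp (n : ℕ) (b : ℕ → ℝ) (x : ℝ) : ℝ := ∑ k ∈ Finset.range n, b k * x ^ k / k.factorial

lemma gp_nonneg {n : ℕ} {b : ℕ → ℝ} (hb : ∀ k, 0 ≤ b k) {x : ℝ} (hx : 0 ≤ x) : 0 ≤ gp n b x :=
  Finset.sum_nonneg fun k _ => div_nonneg (mul_nonneg (hb k) (pow_nonneg hx k)) (Nat.cast_nonneg _)

lemma gp_deriv (n : ℕ) (b : ℕ → ℝ) (x : ℝ) : HasDerivAt (gp (n + 1) b) (gp n (fun k => b (k + 1)) x) x := by
  have h1 : ∀ k ∈ Finset.range (n + 1), HasDerivAt (fun y : ℝ => b k * y ^ k / k.factorial)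
      (b k * (k * x ^ (k - 1)) / k.factorial) x := fun k _ =>
    ((hasDerivAt_pow k x).const_mul (b k)).div_const _
  have h2 := HasDerivAt.fun_sum h1
  have e : ∑ k ∈ Finset.range (n + 1), b k * (k * x ^ (k - 1)) / k.factorial = gp n (fun k => b (k + 1)) x := by
    rw [Finset.sum_range_succ']
    simp only [Nat.cast_zero, zero_mul, mul_zero, zero_div, add_zero, Nat.add_sub_cancel]
    unfold gp
    refine Finset.sum_congr rfl fun k _ => ?_
    have h3 : (0 : ℝ) < k.factorial := by exact_mod_cast k.factorial_pos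
    rw [Nat.factorial_succ]
    push_cast
    field_simp
  rw [e] at h2
  exact h2

lemma gp_mono {n : ℕ} {b : ℕ → ℝ} (hb : ∀ k, 0 ≤ b k) {x : ℝ} (hx : 0 ≤ x) : gp n b x ≤ gp (n + 1) b x := by
  unfold gp
  rw [Finset.sum_range_succ]
  have : 0 ≤ b n * x ^ n / n.factorial := div_nonneg (mul_nonneg (hb n) (pow_nonneg hx n)) (Nat.cast_nonneg _)
  linarith

lemma gp_add (n : ℕ) (b b' : ℕ → ℝ) (l x : ℝ) : gp n (fun k => b k + l * b' k) x = gp n b x + l * gp n b' x := by
  unfold gp
  rw [Finset.mul_sum, ← Finset.sum_add_distrib]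
  refine Finset.sum_congr rfl fun k _ => ?_
  ring

/-- the growth from the derivatives at one point -/
theorem EP_grow {l : ℝ} (hl : 0 ≤ l) (n : ℕ) : ∀ (g : ℂ → ℂ), EP l n g → ∀ (c : ℂ) (b : ℕ → ℝ), (∀ k, 0 ≤ b k) →
    (∀ k, ‖iteratedDeriv k g c‖ ≤ b k) → ∀ (e : ℂ), ‖e‖ = 1 → ∀ x : ℝ, 0 ≤ x →
      ‖g (c + x * e)‖ ≤ Real.exp (2 * l * x) * gp n b x := by
  induction n with
  | zero =>
    intro g hg c b hb0 hb e he x hx
    rw [hg, norm_zero]
    exact mul_nonneg (Real.exp_pos _).le (gp_nonneg hb0 hx)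
  | succ n ih =>
    rintro g ⟨hd, a, ha, hg1⟩ c b hb0 hb e he x hx
    have han : ∀ z, AnalyticAt ℂ g z := fun z => hd.analyticAt z
    have hder : ∀ k : ℕ, iteratedDeriv k (fun z => deriv g z - a * g z) c =
        iteratedDeriv (k + 1) g c - a * iteratedDeriv k g c := by
      intro k
      have h1 : ContDiffAt ℂ k (deriv g) c := (han c).deriv.contDiffAt
      have h2 : ContDiffAt ℂ k (fun z => a * g z) c := contDiffAt_const.mul (han c).contDiffAt
      have h3 := iteratedDeriv_fun_sub h1 h2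
      rw [h3, iteratedDeriv_const_mul_field, iteratedDeriv_succ']
    have h1 := ih (fun z => deriv g z - a * g z) hg1 c (fun k => b (k + 1) + l * b k)
      (fun k => add_nonneg (hb0 _) (mul_nonneg hl (hb0 _))) (fun k => by
        rw [hder]
        refine (norm_sub_le _ _).trans (add_le_add (hb _) ?_)
        rw [norm_mul]
        exact mul_le_mul ha (hb k) (norm_nonneg _) hl) e he
    have hε : ∀ ε : ℝ, 0 < ε → ‖g (c + x * e)‖ ≤ Real.exp (2 * l * x) * (gp (n + 1) b x + ε * (1 + x)) := by
      intro ε hε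
      have hf : ∀ u : ℝ, HasDerivAt (fun v : ℝ => g (c + v * e)) (e * deriv g (c + u * e)) u := by
        intro u
        have h2 : HasDerivAt (fun v : ℝ => c + (v : ℂ) * e) (1 * e) u :=
          ((hasDerivAt_id u).ofReal_comp.mul_const e).const_add c
        rw [one_mul] at h2
        have h3 := (hd (c + u * e)).hasDerivAt.scomp u h2
        simpa [Function.comp_def] using h3
      have hB : ∀ u : ℝ, HasDerivAt (fun v : ℝ => Real.exp (2 * l * v) * (gp (n + 1) b v + ε * (1 + v)))
          (2 * l * Real.exp (2 * l * u) * (gp (n + 1) b u + ε * (1 + u)) +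
            Real.exp (2 * l * u) * (gp n (fun k => b (k + 1)) u + ε)) u := by
        intro u
        have h2 : HasDerivAt (fun v : ℝ => Real.exp (2 * l * v)) (Real.exp (2 * l * u) * (2 * l * 1)) u :=
          ((hasDerivAt_id u).const_mul (2 * l)).exp
        have h3 : HasDerivAt (fun v : ℝ => gp (n + 1) b v + ε * (1 + v)) (gp n (fun k => b (k + 1)) u + ε * 1) u :=
          (gp_deriv n b u).add (((hasDerivAt_id u).const_add 1).const_mul ε)
        have h4 := h2.mul h3
        refine h4.congr_deriv ?_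
        ring
      refine image_norm_le_of_norm_deriv_right_lt_deriv_boundary' (a := 0) (b := x)
        (f := fun v : ℝ => g (c + v * e)) (f' := fun u => e * deriv g (c + u * e))
        (B := fun v : ℝ => Real.exp (2 * l * v) * (gp (n + 1) b v + ε * (1 + v)))
        (fun u _ => (hf u).continuousAt.continuousWithinAt) (fun u _ => (hf u).hasDerivWithinAt) ?_
        (fun u _ => (hB u).continuousAt.continuousWithinAt) (fun u _ => (hB u).hasDerivWithinAt) ?_
        ⟨hx, le_rfl⟩
      · have h2 := hb 0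
        rw [iteratedDeriv_zero] at h2
        have h3 : gp (n + 1) b 0 = b 0 := by
          unfold gp
          rw [Finset.sum_range_succ']
          simp
        simp only [ofReal_zero, zero_mul, add_zero, mul_zero, Real.exp_zero, one_mul, h3, mul_one]
        linarith
      · intro u hu hnorm
        have hu0 : 0 ≤ u := hu.1
        have h2 := h1 u hu0
        rw [gp_add] at h2
        have h3 := gp_mono (n := n) hb0 hu0
        have hE : 0 < Real.exp (2 * l * u) := Real.exp_pos _
        have h4 : ‖e * deriv g (c + u * e)‖ ≤ ‖deriv g (c + u * e) - a * g (c + u * e)‖ + l * ‖g (c + u * e)‖ := by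
          rw [norm_mul, he, one_mul]
          calc ‖deriv g (c + u * e)‖ = ‖(deriv g (c + u * e) - a * g (c + u * e)) + a * g (c + u * e)‖ := by
                rw [sub_add_cancel]
            _ ≤ _ := norm_add_le _ _
            _ ≤ _ := by
                rw [norm_mul a]
                gcongr
        rw [hnorm] at h4
        refine lt_of_le_of_lt h4 ?_
        have h5 : Real.exp (2 * l * u) * (gp n (fun k => b (k + 1)) u + l * gp n b u) ≤
            Real.exp (2 * l * u) * (gp n (fun k => b (k + 1)) u + l * gp (n + 1) b u) := by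
          gcongr
        have h6 : 0 < Real.exp (2 * l * u) * ε := mul_pos hE hε
        have h7 : 0 ≤ Real.exp (2 * l * u) * (l * (ε * (1 + u))) := by positivity
        nlinarith
    refine le_of_forall_pos_le_add fun ε hε' => ?_
    have h2 := hε (ε / (Real.exp (2 * l * x) * (1 + x))) (by positivity)
    refine h2.trans (le_of_eq ?_)
    field_simp

lemma Dbl.mono {D D' : ℝ} {g : ℂ → ℂ} (h : Dbl D g) (hD : D ≤ D') : Dbl D' g := by
  refine ⟨h.1, fun c M hM z hz => (h.2 c M hM z hz).trans ?_⟩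
  have hM0 : 0 ≤ M := (norm_nonneg _).trans (hM c (by simp))
  exact mul_le_mul_of_nonneg_left (Real.exp_le_exp.2 hD) hM0

/-- the invariance -/
lemma Dbl.comp {D : ℝ} {g : ℂ → ℂ} (h : Dbl D g) (y : ℂ) {v : ℂ} (hv : ‖v‖ = 1) : Dbl D (fun s => g (y + v * s)) := by
  refine ⟨h.1.comp (by fun_prop), fun c M hM z hz => ?_⟩
  have hv0 : v ≠ 0 := by
    rintro rfl
    rw [norm_zero] at hv
    exact zero_ne_one hv
  refine h.2 (y + v * c) M (fun w hw => ?_) _ ?_
  · have h1 := hM (v⁻¹ * (w - y)) (by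
      have e1 : v⁻¹ * (w - y) - c = v⁻¹ * (w - (y + v * c)) := by field_simp; ring
      rw [e1, norm_mul, norm_inv, hv, inv_one, one_mul]
      exact hw)
    have e2 : y + v * (v⁻¹ * (w - y)) = w := by field_simp; ring
    simp only [e2] at h1
    exact h1
  · have e1 : y + v * z - (y + v * c) = v * (z - c) := by ring
    rw [e1, norm_mul, hv, one_mul]
    exact hz

lemma gp_fac {n : ℕ} {M r : ℝ} (hM : 0 ≤ M) (hr : 0 < r) {x : ℝ} (hx : r ≤ x) :
    gp n (fun k => k.factorial * M / r ^ k) x ≤ n * (M * (x / r) ^ n) := by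
  unfold gp
  have h1 : ∀ k ∈ Finset.range n, (k.factorial * M / r ^ k) * x ^ k / k.factorial ≤ M * (x / r) ^ n := by
    intro k hk
    have h3 : (0 : ℝ) < k.factorial := by exact_mod_cast k.factorial_pos
    have e1 : (k.factorial * M / r ^ k) * x ^ k / k.factorial = M * (x / r) ^ k := by
      rw [div_pow]
      field_simp
    rw [e1]
    exact mul_le_mul_of_nonneg_left (pow_le_pow_right₀ ((one_le_div hr).2 hx) (Finset.mem_range.1 hk).le) hM
  refine (Finset.sum_le_sum h1).trans (le_of_eq ?_)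
  rw [Finset.sum_const, Finset.card_range, nsmul_eq_mul]

theorem EP_dbl {l : ℝ} (hl : 0 ≤ l) {n : ℕ} {g : ℂ → ℂ} (hd : Differentiable ℂ g) (hg : EP l n g) :
    Dbl (4 * n + 5 * l) g := by
  refine ⟨hd, fun c M hM z hz => ?_⟩
  have hM0 : 0 ≤ M := (norm_nonneg _).trans (hM c (by simp))
  have hc : ∀ k : ℕ, ‖iteratedDeriv k g c‖ ≤ k.factorial * M / (1 / 8 : ℝ) ^ k := by
    intro k
    refine norm_iteratedDeriv_le_of_forall_mem_sphere_norm_le k (by norm_num) hd.diffContOnCl ?_
    intro s hs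
    rw [mem_sphere, dist_eq_norm] at hs
    exact hM s hs.le
  by_cases h1 : ‖z - c‖ ≤ 1 / 8
  · refine (hM z h1).trans ?_
    have : 1 ≤ Real.exp (4 * n + 5 * l) := Real.one_le_exp (by positivity)
    nlinarith
  push Not at h1
  have hzc : 0 < ‖z - c‖ := by linarith
  have h2 := EP_grow hl n g hg c (fun k => k.factorial * M / (1 / 8 : ℝ) ^ k) (fun k => by positivity) hc
    ((z - c) / ‖z - c‖) (by
      rw [norm_div, Complex.norm_real, norm_norm]
      exact div_self hzc.ne') ‖z - c‖ hzc.le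
  have e1 : c + (‖z - c‖ : ℂ) * ((z - c) / ‖z - c‖) = z := by
    have : (‖z - c‖ : ℂ) ≠ 0 := by exact_mod_cast hzc.ne'
    field_simp
    ring
  rw [e1] at h2
  refine h2.trans ?_
  have h3 := gp_fac (n := n) hM0 (show (0 : ℝ) < 1 / 8 by norm_num) h1.le
  have h4 : (‖z - c‖ / (1 / 8)) ^ n ≤ Real.exp (3 * n) := by
    have e2 : Real.exp (3 * n) = Real.exp 3 ^ n := by rw [← Real.exp_nat_mul, mul_comm]
    rw [e2]
    refine pow_le_pow_left₀ (by positivity) ?_ n
    have := exp_three
    rw [div_le_iff₀ (by norm_num)]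
    linarith
  have h5 : (n : ℝ) ≤ Real.exp n := by linarith [Real.add_one_le_exp (n : ℝ)]
  have h6 : Real.exp (2 * l * ‖z - c‖) ≤ Real.exp (5 * l) := Real.exp_le_exp.2 (by nlinarith)
  have h7 : gp n (fun k => k.factorial * M / (1 / 8 : ℝ) ^ k) ‖z - c‖ ≤ Real.exp n * (M * Real.exp (3 * n)) := by
    refine h3.trans (mul_le_mul h5 (mul_le_mul_of_nonneg_left h4 hM0) (by positivity) (Real.exp_pos _).le)
  calc _ ≤ Real.exp (5 * l) * (Real.exp n * (M * Real.exp (3 * n))) :=
        mul_le_mul h6 h7 (gp_nonneg (fun k => by positivity) hzc.le) (Real.exp_pos _).le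
    _ = M * (Real.exp (5 * l) * Real.exp n * Real.exp (3 * n)) := by ring
    _ = _ := by rw [← Real.exp_add, ← Real.exp_add]; ring_nf

/-- an exponential polynomial: `S` the frequencies, `p` the coefficients -/
noncomputable def xs (S : Finset ℂ) (p : ℂ → ℂ[X]) (z : ℂ) : ℂ := ∑ a ∈ S, (p a).eval z * cexp (a * z)

lemma xs_der (S : Finset ℂ) (p : ℂ → ℂ[X]) (z : ℂ) : HasDerivAt (xs S p)
    (∑ a ∈ S, ((derivative (p a)).eval z + a * (p a).eval z) * cexp (a * z)) z := by
  have h1 : ∀ a ∈ S, HasDerivAt (fun y : ℂ => (p a).eval y * cexp (a * y))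
      (((derivative (p a)).eval z + a * (p a).eval z) * cexp (a * z)) z := by
    intro a _
    have h2 := (p a).hasDerivAt z
    have h3 : HasDerivAt (fun y : ℂ => cexp (a * y)) (cexp (a * z) * (a * 1)) z :=
      ((hasDerivAt_id z).const_mul a).cexp
    refine (h2.mul h3).congr_deriv ?_
    ring
  exact HasDerivAt.fun_sum h1

lemma xs_diff (S : Finset ℂ) (p : ℂ → ℂ[X]) : Differentiable ℂ (xs S p) := fun z => (xs_der S p z).differentiableAt

lemma xs_op (S : Finset ℂ) (p : ℂ → ℂ[X]) (a : ℂ) : (fun z => deriv (xs S p) z - a * xs S p z) =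
    xs S (fun b => derivative (p b) + C (b - a) * p b) := by
  funext z
  rw [(xs_der S p z).deriv]
  unfold xs
  rw [Finset.mul_sum, ← Finset.sum_sub_distrib]
  refine Finset.sum_congr rfl fun b _ => ?_
  simp only [eval_add, eval_mul, eval_C]
  ring

theorem xs_EP {l : ℝ} (hl : 0 ≤ l) (n : ℕ) : ∀ (S : Finset ℂ) (p : ℂ → ℂ[X]), ∑ a ∈ S, ((p a).natDegree + 1) ≤ n →
    (∀ a ∈ S, ‖a‖ ≤ l) → EP l n (xs S p) := by
  induction n with
  | zero =>
    intro S p hn _ z
    have hS : S = ∅ := by
      rw [Finset.eq_empty_iff_forall_notMem]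
      intro a ha
      have h1 := Finset.single_le_sum (f := fun a => (p a).natDegree + 1) (fun _ _ => Nat.zero_le _) ha
      omega
    rw [hS]
    simp [xs]
  | succ n ih =>
    intro S p hn hS
    refine ⟨xs_diff S p, ?_⟩
    have hdeg : ∀ a b : ℂ, (derivative (p b) + C (b - a) * p b).natDegree ≤ (p b).natDegree := by
      intro a b
      refine (natDegree_add_le _ _).trans (max_le ?_ (natDegree_C_mul_le _ _))
      exact (natDegree_derivative_le (p b)).trans (Nat.sub_le _ _)
    rcases S.eq_empty_or_nonempty with h0 | ⟨a, ha⟩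
    · refine ⟨0, by rw [norm_zero]; exact hl, ?_⟩
      rw [xs_op]
      subst h0
      exact ih ∅ _ (by simp) (by simp)
    · refine ⟨a, hS a ha, ?_⟩
      rw [xs_op]
      obtain ⟨q, hq⟩ : ∃ q : ℂ → ℂ[X], q = fun b => derivative (p b) + C (b - a) * p b := ⟨_, rfl⟩
      have hqa : q a = derivative (p a) := by rw [hq]; simp
      have hqd : ∀ b, (q b).natDegree ≤ (p b).natDegree := fun b => by rw [hq]; exact hdeg a b
      rw [← hq]
      have hsplit : ∀ r : ℂ → ℂ[X], ∑ b ∈ S, ((r b).natDegree + 1) =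
          ((r a).natDegree + 1) + ∑ b ∈ S.erase a, ((r b).natDegree + 1) := fun r =>
        (Finset.add_sum_erase S (fun b => (r b).natDegree + 1) ha).symm
      have hle : ∑ b ∈ S.erase a, ((q b).natDegree + 1) ≤ ∑ b ∈ S.erase a, ((p b).natDegree + 1) :=
        Finset.sum_le_sum fun b _ => Nat.add_le_add_right (hqd b) 1
      rw [hsplit p] at hn
      by_cases hd : (p a).natDegree = 0
      · have hq0 : q a = 0 := by
          rw [hqa, natDegree_eq_zero.1 hd |>.choose_spec.symm, derivative_C]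
        have he : xs S q = xs (S.erase a) q := by
          funext z
          unfold xs
          rw [← Finset.add_sum_erase S _ ha, hq0, eval_zero, zero_mul, zero_add]
        rw [he]
        exact ih _ _ (by omega) fun b hb => hS b (Finset.mem_of_mem_erase hb)
      · refine ih S q ?_ hS
        rw [hsplit q, hqa]
        have h1 := natDegree_derivative_le (p a)
        omega

theorem xs_dbl {x : ℝ} {S : Finset ℂ} {p : ℂ → ℂ[X]} (hx : 0 ≤ x) (hn : ∑ a ∈ S, (((p a).natDegree : ℝ) + 1) ≤ x)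
    (hS : ∀ a ∈ S, ‖a‖ ≤ x) : Dbl (9 * x) (xs S p) := by
  have h1 := EP_dbl hx (xs_diff S p) (xs_EP hx (∑ a ∈ S, ((p a).natDegree + 1)) S p le_rfl hS)
  refine h1.mono ?_
  push_cast
  linarith

end Pool.Agent.Q97.PA
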