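import Pool.Agent.Q240.GS.Ex2
import Pool.Agent.Q97.PA.E

/-! # Local approximation by polynomials, abstract version -/

set_option autoImplicit false

namespace Pool.Agent.Q97.PA

open Complex Polynomial Metric Set
open Q240.GS (WB WL local_plW)
open Q240.LH (rect_max)

/-- the parameter -/
noncomputable def dl (h : ℝ) : ℝ := min (1 / 8) (h ^ 2 / 2)

lemma dl_pos {h : ℝ} (h0 : 0 < h) : 0 < dl h := lt_min (by norm_num) (by positivity)

lemma dl_le (h : ℝ) : dl h ≤ 1 / 8 := min_le_left _ _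

lemma dl_sq (h : ℝ) : 2 * dl h ≤ h ^ 2 := by
  have : dl h ≤ h ^ 2 / 2 := min_le_right _ _
  linarith

/-- one step: one window -/
theorem step {A h η : ℝ} (hA : 0 < A) (hη : 0 < η) (hh0 : 0 < h) (hh1 : h ≤ 1) : ∃ X e : ℝ, 1 ≤ X ∧ 0 < e ∧
    ∀ (f : ℂ → ℂ) (L Y y0 B b D : ℝ) (g : ℂ → ℂ), 1 ≤ L → WB f L Y e A → |y0| + X ≤ Y → 0 ≤ B → η ≤ b →
      b ≤ B + η → 0 ≤ D → Dbl D g → (∀ t : ℝ, |t - y0| ≤ X → ‖f (⟨1 / 2, t⟩ : ℂ)‖ ≤ Real.exp (B * L)) →
      (∀ t : ℝ, |t - y0| ≤ h → ‖f (⟨1 / 2, t⟩ : ℂ) - g (t : ℂ)‖ ≤ Real.exp (b * L)) →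
      ∀ t : ℝ, |t - y0| ≤ h → ‖f (⟨1 / 2, t⟩ : ℂ)‖ ≤
        Real.exp (((1 - dl h / 35) * (B + η) + dl h / 35 * b) * L + 35 * (D + 3) / dl h) := by
  obtain ⟨X0, e0, hX0, he0, H⟩ := local_plW A η hA hη
  refine ⟨X0 + 2, min e0 η, by linarith, lt_min he0 hη, ?_⟩
  intro f L Y y0 B b D g hL hf hY hB hb hb' hD hg hl hp t ht
  have hL0 : 0 ≤ L := by linarith
  have hf0 : WB f L Y e0 A := hf.mono hL0 le_rfl (min_le_left _ _) le_rfl
  have hfη : WB f L Y η A := hf.mono hL0 le_rfl (min_le_right _ _) le_rfl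
  obtain ⟨F, hF⟩ : ∃ F : ℂ → ℂ, F = fun s => f (s + (⟨1 / 2, y0⟩ : ℂ)) := ⟨_, rfl⟩
  have hwin : ∀ s : ℂ, |s.im| ≤ 2 → |(s + (⟨1 / 2, y0⟩ : ℂ)).im| ≤ Y := by
    intro s hs
    have e1 : (s + (⟨1 / 2, y0⟩ : ℂ)).im = s.im + y0 := by simp
    rw [e1]
    have := abs_add_le s.im y0
    linarith
  have hre : ∀ s : ℂ, (s + (⟨1 / 2, y0⟩ : ℂ)).re = s.re + 1 / 2 := fun s => by simp
  have key := core (dl_pos hh0) (dl_le h) hh0 hh1 (dl_sq h) (F := F) (M := (B + η) * L) (m := b * L) ?_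
    (mul_le_mul_of_nonneg_right hb' hL0) ?_ ?_ (fun s => g ((y0 : ℂ) + (-I) * s)) (D := D) hD
    (hg.comp (y0 : ℂ) (v := -I) (by rw [norm_neg, norm_I])) ?_
    (s := (⟨0, t - y0⟩ : ℂ)) rfl (by simpa using ht)
  · have e1 : F (⟨0, t - y0⟩ : ℂ) = f (⟨1 / 2, t⟩ : ℂ) := by
      rw [hF]
      simp only
      congr 1
      apply Complex.ext <;> simp
    rw [e1] at key
    refine key.trans (Real.exp_le_exp.2 (le_of_eq ?_))
    ring
  · intro s h1 h2 h3
    rw [hF]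
    have h4 := hf.an (s + (⟨1 / 2, y0⟩ : ℂ)) (hwin s h3) (by rw [hre]; linarith) (by rw [hre]; linarith)
    exact h4.differentiableAt.comp s (by fun_prop)
  · intro s h1 h2 h3
    rw [hF]
    simp only
    by_cases h4 : s.re ≤ 3 / 2
    · obtain ⟨g1, g2⟩ := abs_le.1 h3
      refine H f L Y (s + (⟨1 / 2, y0⟩ : ℂ)).im (1 / 2) B hL hf0.wl ?_ (by norm_num) (by norm_num) hB ?_ _ rfl
        (by rw [hre]; linarith) (by rw [hre]; linarith)
      · have e1 : (s + (⟨1 / 2, y0⟩ : ℂ)).im = s.im + y0 := by simp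
        rw [e1]
        have := abs_add_le s.im y0
        linarith
      · intro z hz1 hz2
        have e1 : (s + (⟨1 / 2, y0⟩ : ℂ)).im = s.im + y0 := by simp
        rw [e1] at hz2
        have e2 : z = (⟨1 / 2, z.im⟩ : ℂ) := by
          apply Complex.ext
          · exact hz1
          · rfl
        rw [e2]
        refine hl z.im ?_
        rw [abs_le] at hz2 ⊢
        constructor <;> linarith [hz2.1, hz2.2]
    · push Not at h4
      refine (hfη.right _ (hwin s h3) (by rw [hre]; linarith) (by rw [hre]; linarith)).trans (Real.exp_le_exp.2 ?_)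
      exact mul_le_mul_of_nonneg_right (by linarith) hL0
  · intro s h1
    rw [hF]
    simp only
    have g1 : |s.re - 9 / 8| ≤ 1 / 8 := by
      have h3 := (abs_re_le_norm (s - 9 / 8)).trans h1
      have e : (s - 9 / 8).re = s.re - 9 / 8 := by simp
      rwa [e] at h3
    have g2 : |s.im| ≤ 1 / 8 := by
      have h3 := (abs_im_le_norm (s - 9 / 8)).trans h1
      have e : (s - 9 / 8).im = s.im := by simp
      rwa [e] at h3
    rw [abs_le] at g1
    refine (hfη.right _ (hwin s (by linarith)) (by rw [hre]; linarith) (by rw [hre]; linarith)).trans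
      (Real.exp_le_exp.2 (mul_le_mul_of_nonneg_right hb hL0))
  · intro s h1 h2
    have e1 : s + (⟨1 / 2, y0⟩ : ℂ) = (⟨1 / 2, s.im + y0⟩ : ℂ) := by
      apply Complex.ext <;> simp [h1]
    have e2 : (y0 : ℂ) + (-I) * s = ((s.im + y0 : ℝ) : ℂ) := by
      apply Complex.ext <;> simp [h1]
      ring
    rw [hF]
    simp only
    rw [e1, e2]
    exact hp _ (by rw [add_sub_cancel_right]; exact h2)

/-- iteration -/
theorem iter {A h ε : ℝ} (hA : 0 < A) (hh0 : 0 < h) (hh1 : h ≤ 1) (hε : 0 < ε) : ∃ ν e X L0 : ℝ, 0 < ν ∧ 0 < e ∧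
    1 ≤ X ∧ 1 ≤ L0 ∧ ∀ (f : ℂ → ℂ) (L : ℝ), L0 ≤ L → WB f L X e A →
      (∀ y : ℝ, |y| ≤ X → ∃ g : ℂ → ℂ, Dbl (ν * L) g ∧
        ∀ t : ℝ, |t - y| ≤ h → ‖f (⟨1 / 2, t⟩ : ℂ) - g (t : ℂ)‖ ≤ Real.exp (ν * L)) →
      ‖f (⟨1 / 2, 0⟩ : ℂ)‖ ≤ Real.exp (ε * L) := by
  obtain ⟨w, hw⟩ : ∃ w : ℝ, w = dl h / 35 := ⟨_, rfl⟩
  have hd0 := dl_pos hh0
  have hd1 := dl_le h
  have hw0 : 0 < w := by rw [hw]; positivity
  have hw1 : w < 1 := by rw [hw]; linarith
  obtain ⟨η, hη⟩ : ∃ η : ℝ, η = w * ε / 8 := ⟨_, rfl⟩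
  have hη0 : 0 < η := by rw [hη]; positivity
  obtain ⟨X0, e, hX0, he, H⟩ := step hA hη0 hh0 hh1
  obtain ⟨k, hk⟩ := exists_pow_lt_of_lt_one (show 0 < ε / (2 * A) by positivity) (show 1 - w < 1 by linarith)
  obtain ⟨ν, hν⟩ : ∃ ν : ℝ, ν = min η (η * dl h / 35) := ⟨_, rfl⟩
  have hν0 : 0 < ν := by rw [hν]; exact lt_min hη0 (by positivity)
  have hν1 : ν ≤ η := by rw [hν]; exact min_le_left _ _
  have hν2 : ν ≤ η * dl h / 35 := by rw [hν]; exact min_le_right _ _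
  obtain ⟨L0, hL0⟩ : ∃ L0 : ℝ, L0 = max 1 (105 / (dl h * η)) := ⟨_, rfl⟩
  refine ⟨ν, e, (k + 1) * X0, L0, hν0, he, ?_, by rw [hL0]; exact le_max_left _ _, ?_⟩
  · have : (0 : ℝ) ≤ k := Nat.cast_nonneg k
    nlinarith
  intro f L hL hf hp
  have hL1 : 1 ≤ L := by rw [hL0] at hL; exact (le_max_left _ _).trans hL
  have hL2 : 105 / (dl h * η) ≤ L := by rw [hL0] at hL; exact (le_max_right _ _).trans hL
  have hLp : 0 < L := by linarith
  have hX0' : 0 < X0 := by linarith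
  have hind : ∀ j : ℕ, j ≤ k → ∀ t : ℝ, |t| ≤ ((k : ℝ) + 1 - j) * X0 →
      ‖f (⟨1 / 2, t⟩ : ℂ)‖ ≤ Real.exp (((1 - w) ^ j * A + ε / 2) * L) := by
    intro j
    induction j with
    | zero =>
      intro _ t ht
      refine (hf.grow _ (by simpa using ht) (by norm_num) (by norm_num)).trans (Real.exp_le_exp.2 ?_)
      apply mul_le_mul_of_nonneg_right _ hLp.le
      rw [pow_zero, one_mul]
      linarith
    | succ j ih =>
      intro hj t ht
      have ih' := ih (by omega)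
      push_cast at ht
      have hjk : ((j : ℝ)) + 1 ≤ k := by exact_mod_cast hj
      obtain ⟨p, hp1, hp2⟩ := hp t (ht.trans (by nlinarith))
      have hB0 : 0 ≤ (1 - w) ^ j * A + ε / 2 := by
        have : 0 ≤ (1 - w) ^ j := pow_nonneg (by linarith) j
        positivity
      have h1 := H f L ((k + 1) * X0) t ((1 - w) ^ j * A + ε / 2) η (ν * L) p hL1 hf ?_ hB0 le_rfl ?_
        (by positivity) hp1 ?_ ?_
        t (by rw [sub_self, abs_zero]; exact hh0.le)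
      · refine h1.trans (Real.exp_le_exp.2 ?_)
        rw [← hw]
        have h2 : 35 * (ν * L + 3) / dl h ≤ 2 * η * L := by
          rw [div_le_iff₀ hd0]
          rw [div_le_iff₀ (by positivity)] at hL2
          have h3 : ν * L ≤ η * dl h / 35 * L := mul_le_mul_of_nonneg_right hν2 hLp.le
          nlinarith
        have h4 : (1 - w) * ((1 - w) ^ j * A + ε / 2 + η) + w * η + 2 * η ≤ (1 - w) ^ (j + 1) * A + ε / 2 := by
          rw [pow_succ]
          have h5 : (1 - w) * η + w * η + 2 * η ≤ w * (ε / 2) := by rw [hη]; ring_nf; nlinarith [mul_pos hw0 hε]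
          nlinarith
        calc _ ≤ ((1 - w) * ((1 - w) ^ j * A + ε / 2 + η) + w * η) * L + 2 * η * L := by linarith
          _ = ((1 - w) * ((1 - w) ^ j * A + ε / 2 + η) + w * η + 2 * η) * L := by ring
          _ ≤ _ := mul_le_mul_of_nonneg_right h4 hLp.le
      · nlinarith
      · linarith
      · intro t' ht'
        refine ih' t' ?_
        have := abs_add_le (t' - t) t
        rw [sub_add_cancel] at this
        nlinarith
      · intro t' ht'
        exact (hp2 t' ht').trans (Real.exp_le_exp.2 (mul_le_mul_of_nonneg_right hν1 hLp.le))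
  refine (hind k le_rfl 0 ?_).trans (Real.exp_le_exp.2 ?_)
  · rw [abs_zero]
    nlinarith
  · apply mul_le_mul_of_nonneg_right _ hLp.le
    rw [lt_div_iff₀ (by positivity)] at hk
    linarith

end Pool.Agent.Q97.PA
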