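import Pool.Agent.Q97.PA.B
import Mathlib.Analysis.Calculus.Taylor

/-! # Taylor polynomials on the critical line, and derivatives -/

set_option autoImplicit false

namespace Pool.Agent.Q97.PA

open Complex Polynomial Metric Set Filter Topology
open Q240.GS (WB WL local_plW)
open Q240.LH (rect_max)

lemma pt_eq (t : ℝ) : (⟨1 / 2, t⟩ : ℂ) = 1 / 2 + (t : ℂ) * I := by
  apply Complex.ext <;> simp

lemma pt_der (t : ℝ) : HasDerivAt (fun x : ℝ => (⟨1 / 2, x⟩ : ℂ)) I t := by
  have h1 : HasDerivAt (fun x : ℝ => 1 / 2 + (x : ℂ) * I) (1 * I) t :=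
    ((hasDerivAt_id t).ofReal_comp.mul_const I).const_add (1 / 2 : ℂ)
  rw [one_mul] at h1
  exact h1.congr_of_eventuallyEq (Eventually.of_forall fun x => pt_eq x)

lemma G_iter {f : ℂ → ℂ} (k : ℕ) : ∀ t : ℝ, AnalyticAt ℂ f (⟨1 / 2, t⟩ : ℂ) →
    iteratedDeriv k (fun x : ℝ => f (⟨1 / 2, x⟩ : ℂ)) t = I ^ k * iteratedDeriv k f (⟨1 / 2, t⟩ : ℂ) := by
  induction k with
  | zero =>
    intro t _
    simp
  | succ k ih =>
    intro t hf
    rw [iteratedDeriv_succ, iteratedDeriv_succ]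
    have h1 : ∀ᶠ x : ℝ in 𝓝 t, AnalyticAt ℂ f (⟨1 / 2, x⟩ : ℂ) :=
      (pt_der t).continuousAt.eventually hf.eventually_analyticAt
    have h2 : iteratedDeriv k (fun x : ℝ => f (⟨1 / 2, x⟩ : ℂ)) =ᶠ[𝓝 t]
        fun x : ℝ => I ^ k * iteratedDeriv k f (⟨1 / 2, x⟩ : ℂ) := by
      filter_upwards [h1] with x hx
      exact ih x hx
    rw [h2.deriv_eq]
    have h3 : AnalyticAt ℂ (iteratedDeriv k f) (⟨1 / 2, t⟩ : ℂ) := by
      rw [iteratedDeriv_eq_iterate]
      exact hf.iterated_deriv k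
    have h4 := (h3.differentiableAt.hasDerivAt.scomp t (pt_der t)).const_mul (I ^ k)
    have h5 := h4.deriv
    simp only [Function.comp_def] at h5
    rw [h5, smul_eq_mul, pow_succ]
    ring

lemma G_cd {f : ℂ → ℂ} {t : ℝ} (hf : AnalyticAt ℂ f (⟨1 / 2, t⟩ : ℂ)) (n : ℕ) :
    ContDiffAt ℝ n (fun x : ℝ => f (⟨1 / 2, x⟩ : ℂ)) t := by
  have h1 : ContDiffAt ℝ n f (⟨1 / 2, t⟩ : ℂ) := (hf.contDiffAt (n := n)).restrict_scalars ℝ
  have h2 : ContDiffAt ℝ n (fun x : ℝ => (⟨1 / 2, x⟩ : ℂ)) t := by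
    have e : (fun x : ℝ => (⟨1 / 2, x⟩ : ℂ)) = fun x : ℝ => 1 / 2 + (x : ℂ) * I := funext pt_eq
    rw [e]
    exact contDiffAt_const.add (ofRealCLM.contDiff.contDiffAt.mul contDiffAt_const)
  exact h1.comp t h2

/-- Taylor's formula on a segment of the critical line -/
theorem taylor_seg {f : ℂ → ℂ} {a b : ℝ} (hab : a < b)
    (hf : ∀ t : ℝ, a ≤ t → t ≤ b → AnalyticAt ℂ f (⟨1 / 2, t⟩ : ℂ)) (n : ℕ) {M : ℝ}
    (hM : ∀ t : ℝ, a ≤ t → t ≤ b → ‖iteratedDeriv n f (⟨1 / 2, t⟩ : ℂ)‖ ≤ n.factorial * M) :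
    ∃ p : ℂ[X], p.natDegree ≤ n ∧ ∀ t : ℝ, a ≤ t → t ≤ b →
      ‖f (⟨1 / 2, t⟩ : ℂ) - p.eval (t : ℂ)‖ ≤ (n + 1) * (b - a) ^ n * M := by
  have hM0 : 0 ≤ M := by
    have h1 := (norm_nonneg _).trans (hM a le_rfl hab.le)
    have h2 : (0 : ℝ) < n.factorial := by exact_mod_cast n.factorial_pos
    exact nonneg_of_mul_nonneg_right h1 h2
  cases n with
  | zero =>
    refine ⟨0, by simp, fun t h1 h2 => ?_⟩
    have h3 := hM t h1 h2
    simpa using h3
  | succ k =>
    obtain ⟨G, hG⟩ : ∃ G : ℝ → ℂ, G = fun x : ℝ => f (⟨1 / 2, x⟩ : ℂ) := ⟨_, rfl⟩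
    have hcd : ∀ t ∈ Icc a b, ∀ j : ℕ, ContDiffAt ℝ j G t := fun t ht j => by
      rw [hG]
      exact G_cd (hf t ht.1 ht.2) j
    have hit : ∀ t ∈ Icc a b, ∀ j : ℕ, iteratedDerivWithin j G (Icc a b) t = I ^ j * iteratedDeriv j f (⟨1 / 2, t⟩ : ℂ) := by
      intro t ht j
      rw [iteratedDerivWithin_eq_iteratedDeriv (uniqueDiffOn_Icc hab) (hcd t ht j) ht, hG]
      exact G_iter j t (hf t ht.1 ht.2)
    have hmem : a ∈ Icc a b := ⟨le_rfl, hab.le⟩
    refine ⟨∑ j ∈ Finset.range (k + 1), C (((j.factorial : ℝ) : ℂ)⁻¹ * iteratedDerivWithin j G (Icc a b) a) *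
      (X - C (a : ℂ)) ^ j, ?_, fun t h1 h2 => ?_⟩
    · refine (natDegree_sum_le _ _).trans ?_
      rw [Finset.fold_max_le]
      refine ⟨Nat.zero_le _, fun j hj => ?_⟩
      refine (natDegree_C_mul_le _ _).trans ?_
      refine (natDegree_pow_le).trans ?_
      rw [natDegree_X_sub_C, mul_one]
      have := Finset.mem_range.1 hj
      omega
    · have key := taylor_mean_remainder_bound (f := G) (a := a) (b := b) (C := (k + 1).factorial * M) (x := t) (n := k)
        hab.le (fun x hx => ((hcd x hx (k + 1)).of_le (by norm_cast)).contDiffWithinAt) ⟨h1, h2⟩ (fun x hx => by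
          rw [hit x hx, norm_mul, norm_pow, norm_I, one_pow, one_mul]
          exact hM x hx.1 hx.2)
      rw [taylor_within_apply] at key
      have e1 : (∑ j ∈ Finset.range (k + 1), C (((j.factorial : ℝ) : ℂ)⁻¹ * iteratedDerivWithin j G (Icc a b) a) *
          (X - C (a : ℂ)) ^ j : ℂ[X]).eval (t : ℂ) =
          ∑ j ∈ Finset.range (k + 1), ((j.factorial : ℝ)⁻¹ * (t - a) ^ j) • iteratedDerivWithin j G (Icc a b) a := by
        rw [eval_finsetSum]
        refine Finset.sum_congr rfl fun j _ => ?_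
        rw [eval_mul, eval_C, eval_pow, eval_sub, eval_X, eval_C, real_smul]
        push_cast
        ring
      rw [e1]
      have e2 : G t = f (⟨1 / 2, t⟩ : ℂ) := by rw [hG]
      rw [e2] at key
      refine key.trans ?_
      have h3 : (t - a) ^ (k + 1) ≤ (b - a) ^ (k + 1) := pow_le_pow_left₀ (by linarith) (by linarith) _
      have h4 : (0 : ℝ) < k.factorial := by exact_mod_cast k.factorial_pos
      rw [div_le_iff₀ h4, Nat.factorial_succ]
      push_cast
      calc ((k : ℝ) + 1) * k.factorial * M * (t - a) ^ (k + 1) ≤ ((k : ℝ) + 1) * k.factorial * M * (b - a) ^ (k + 1) :=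
            mul_le_mul_of_nonneg_left h3 (by positivity)
        _ ≤ ((k : ℝ) + 1 + 1) * k.factorial * M * (b - a) ^ (k + 1) := by
            have h5 : 0 ≤ (b - a) ^ (k + 1) := pow_nonneg (by linarith) _
            gcongr
            linarith
        _ = _ := by ring

/-- a bound on the line gives one in a disc -/
theorem disc {A η : ℝ} (hA : 0 < A) (hη : 0 < η) : ∃ X e r : ℝ, 1 ≤ X ∧ 0 < e ∧ 0 < r ∧ r ≤ 1 / 2 ∧
    ∀ (f : ℂ → ℂ) (L Y T B : ℝ), 1 ≤ L → WB f L Y e A → |T| + X ≤ Y → 0 ≤ B →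
      (∀ t : ℝ, |t - T| ≤ X → ‖f (⟨1 / 2, t⟩ : ℂ)‖ ≤ Real.exp (B * L)) →
      ∀ s : ℂ, ‖s - (⟨1 / 2, T⟩ : ℂ)‖ ≤ r → ‖f s‖ ≤ Real.exp ((B + η) * L) := by
  obtain ⟨X0, e0, hX0, he0, H⟩ := local_plW A η hA hη
  obtain ⟨κ, hκ⟩ : ∃ κ : ℝ, κ = η / 4 := ⟨_, rfl⟩
  have hκ0 : 0 < κ := by rw [hκ]; positivity
  obtain ⟨X1, hX1⟩ : ∃ X1 : ℝ, X1 = (A + κ) / κ + 1 := ⟨_, rfl⟩
  have hX11 : 1 ≤ X1 := by
    rw [hX1]
    have : 0 ≤ (A + κ) / κ := by positivity
    linarith
  have hX12 : A + κ ≤ κ * X1 ^ 2 := by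
    have h1 : A + κ ≤ κ * X1 := by
      rw [hX1, mul_add, mul_div_cancel₀ _ hκ0.ne']
      linarith
    nlinarith
  obtain ⟨r, hr⟩ : ∃ r : ℝ, r = min (1 / 2) (η / (4 * A)) := ⟨_, rfl⟩
  have hr0 : 0 < r := by rw [hr]; exact lt_min (by norm_num) (by positivity)
  have hr1 : r ≤ 1 / 2 := by rw [hr]; exact min_le_left _ _
  have hr2 : r * A ≤ η / 4 := by
    have : r ≤ η / (4 * A) := by rw [hr]; exact min_le_right _ _
    rw [le_div_iff₀ (by positivity)] at this
    linarith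
  refine ⟨X0 + X1 + 1, e0, r, by linarith, he0, hr0, hr1, fun f L Y T B hL hf hY hB hl s hs => ?_⟩
  have hLp : 0 < L := by linarith
  have hre : |s.re - 1 / 2| ≤ r := by
    have h3 := (abs_re_le_norm (s - (⟨1 / 2, T⟩ : ℂ))).trans hs
    have e : (s - (⟨1 / 2, T⟩ : ℂ)).re = s.re - 1 / 2 := by simp
    rwa [e] at h3
  have him : |s.im - T| ≤ r := by
    have h3 := (abs_im_le_norm (s - (⟨1 / 2, T⟩ : ℂ))).trans hs
    have e : (s - (⟨1 / 2, T⟩ : ℂ)).im = s.im - T := by simp
    rwa [e] at h3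
  obtain ⟨y, hy⟩ : ∃ y : ℝ, y = s.im := ⟨_, rfl⟩
  rw [← hy] at him
  have hyY : ∀ x : ℝ, |x - y| ≤ X1 → |x| ≤ Y := by
    intro x hx
    have h1 : |x| ≤ |x - y| + |y - T| + |T| := by
      calc |x| = |(x - y) + (y - T) + T| := by ring_nf
        _ ≤ _ := (abs_add_le _ _).trans (by linarith [abs_add_le (x - y) (y - T)])
    linarith
  rcases le_total (1 / 2) s.re with h1 | h1
  · refine H f L Y y (1 / 2) B hL hf.wl ?_ (by norm_num) (by norm_num) hB ?_ s hy.symm h1
      (by linarith [(abs_le.1 hre).2])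
    · have : |y| ≤ |y - T| + |T| := by
        calc |y| = |(y - T) + T| := by ring_nf
          _ ≤ _ := abs_add_le _ _
      linarith
    · intro z hz1 hz2
      have e2 : z = (⟨1 / 2, z.im⟩ : ℂ) := by
        apply Complex.ext
        · exact hz1
        · rfl
      rw [e2]
      refine hl z.im ?_
      calc |z.im - T| = |(z.im - y) + (y - T)| := by ring_nf
        _ ≤ |z.im - y| + |y - T| := abs_add_le _ _
        _ ≤ _ := by linarith
  · -- the left side
    obtain ⟨g, hg⟩ : ∃ g : ℂ → ℂ, g = fun z => f z * cexp ((κ * L : ℝ) * (z - (⟨1 / 2, y⟩ : ℂ)) ^ 2 +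
        (A * L : ℝ) * (z - 1 / 2)) := ⟨_, rfl⟩
    have hgn : ∀ z : ℂ, ‖g z‖ = ‖f z‖ * Real.exp (κ * L * ((z.re - 1 / 2) ^ 2 - (z.im - y) ^ 2) + A * L * (z.re - 1 / 2)) := by
      intro z
      rw [hg]
      simp only
      rw [norm_mul, Complex.norm_exp, add_re, re_ofReal_mul, re_ofReal_mul]
      congr 3
      · simp [sq]
      · simp
    have hbox : ∀ z : ℂ, -1 / 2 ≤ z.re → z.re ≤ 1 / 2 → y - X1 ≤ z.im → z.im ≤ y + X1 → |z.im| ≤ Y := by
      intro z _ _ h3 h4
      apply hyY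
      rw [abs_le]
      constructor <;> linarith
    have hkey : ‖g s‖ ≤ Real.exp ((B + κ) * L) := by
      refine rect_max (x0 := -1 / 2) (x1 := 1 / 2) (y0 := y - X1) (y1 := y + X1) (by norm_num) (by linarith) ?_ ?_
        (by linarith [(abs_le.1 hre).1]) h1 (by rw [← hy]; linarith) (by rw [← hy]; linarith)
      · intro z h3 h4 h5 h6
        rw [hg]
        have h7 := (hf.an z (hbox z h3 h4 h5 h6) (by linarith) (by linarith)).differentiableAt
        exact h7.mul (by fun_prop)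
      · intro z h3 h4 h5 h6 h7
        rw [hgn]
        have hgr := hf.grow z (hbox z h3 h4 h5 h6) (by linarith) (by linarith)
        have hq : (z.re - 1 / 2) ^ 2 ≤ 1 := by nlinarith
        rcases h7 with h7 | h7 | h7
        · calc _ ≤ Real.exp (A * L) * Real.exp (κ * L * ((z.re - 1 / 2) ^ 2 - (z.im - y) ^ 2) + A * L * (z.re - 1 / 2)) :=
                mul_le_mul_of_nonneg_right hgr (Real.exp_pos _).le
            _ = Real.exp (A * L + (κ * L * ((z.re - 1 / 2) ^ 2 - (z.im - y) ^ 2) + A * L * (z.re - 1 / 2))) :=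
                (Real.exp_add _ _).symm
            _ ≤ _ := by
                apply Real.exp_le_exp.2
                rw [h7]
                have h8 : κ * L * ((-1 / 2 - 1 / 2) ^ 2 - (z.im - y) ^ 2) ≤ κ * L * 1 :=
                  mul_le_mul_of_nonneg_left (by nlinarith [sq_nonneg (z.im - y)]) (by positivity)
                nlinarith [mul_nonneg hB hLp.le]
        · have e2 : z = (⟨1 / 2, z.im⟩ : ℂ) := by
            apply Complex.ext
            · exact h7
            · rfl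
          have h8 : ‖f z‖ ≤ Real.exp (B * L) := by
            rw [e2]
            refine hl z.im ?_
            have h9 : |z.im - y| ≤ X1 := by
              rw [abs_le]
              constructor <;> linarith
            calc |z.im - T| = |(z.im - y) + (y - T)| := by ring_nf
              _ ≤ |z.im - y| + |y - T| := abs_add_le _ _
              _ ≤ _ := by linarith
          calc _ ≤ Real.exp (B * L) * Real.exp (κ * L * ((z.re - 1 / 2) ^ 2 - (z.im - y) ^ 2) + A * L * (z.re - 1 / 2)) :=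
                mul_le_mul_of_nonneg_right h8 (Real.exp_pos _).le
            _ = Real.exp (B * L + (κ * L * ((z.re - 1 / 2) ^ 2 - (z.im - y) ^ 2) + A * L * (z.re - 1 / 2))) :=
                (Real.exp_add _ _).symm
            _ ≤ _ := by
                apply Real.exp_le_exp.2
                rw [h7]
                have h8 : κ * L * ((1 / 2 - 1 / 2) ^ 2 - (z.im - y) ^ 2) ≤ κ * L * 1 :=
                  mul_le_mul_of_nonneg_left (by nlinarith [sq_nonneg (z.im - y)]) (by positivity)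
                linarith
        · calc _ ≤ Real.exp (A * L) * Real.exp (κ * L * ((z.re - 1 / 2) ^ 2 - (z.im - y) ^ 2) + A * L * (z.re - 1 / 2)) :=
                mul_le_mul_of_nonneg_right hgr (Real.exp_pos _).le
            _ = Real.exp (A * L + (κ * L * ((z.re - 1 / 2) ^ 2 - (z.im - y) ^ 2) + A * L * (z.re - 1 / 2))) :=
                (Real.exp_add _ _).symm
            _ ≤ _ := by
                apply Real.exp_le_exp.2
                have h9 : (z.im - y) ^ 2 = X1 ^ 2 := by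
                  rcases h7 with h7 | h7 <;> rw [h7] <;> ring
                rw [h9]
                have h8 : κ * L * ((z.re - 1 / 2) ^ 2 - X1 ^ 2) ≤ κ * L - (A + κ) * L := by
                  have : κ * L * (z.re - 1 / 2) ^ 2 ≤ κ * L * 1 := mul_le_mul_of_nonneg_left hq (by positivity)
                  nlinarith
                have h10 : A * L * (z.re - 1 / 2) ≤ 0 :=
                  mul_nonpos_of_nonneg_of_nonpos (by positivity) (by linarith)
                have h11 : 0 ≤ B * L := by positivity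
                nlinarith
    rw [hgn] at hkey
    have h3 : ‖f s‖ = ‖f s‖ * Real.exp (κ * L * ((s.re - 1 / 2) ^ 2 - (s.im - y) ^ 2) + A * L * (s.re - 1 / 2)) *
        Real.exp (-(κ * L * ((s.re - 1 / 2) ^ 2 - (s.im - y) ^ 2) + A * L * (s.re - 1 / 2))) := by
      rw [mul_assoc, ← Real.exp_add, add_neg_cancel, Real.exp_zero, mul_one]
    rw [h3]
    calc _ ≤ Real.exp ((B + κ) * L) * Real.exp (-(κ * L * ((s.re - 1 / 2) ^ 2 - (s.im - y) ^ 2) + A * L * (s.re - 1 / 2))) :=
          mul_le_mul_of_nonneg_right hkey (Real.exp_pos _).le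
      _ = Real.exp ((B + κ) * L + -(κ * L * ((s.re - 1 / 2) ^ 2 - (s.im - y) ^ 2) + A * L * (s.re - 1 / 2))) :=
          (Real.exp_add _ _).symm
      _ ≤ _ := by
          apply Real.exp_le_exp.2
          rw [← hy, sub_self]
          have h4 : 0 ≤ κ * L * (s.re - 1 / 2) ^ 2 := by positivity
          have h5 : A * L * (1 / 2 - s.re) ≤ η / 4 * L := by
            have h6 : 1 / 2 - s.re ≤ r := by linarith [(abs_le.1 hre).1]
            calc A * L * (1 / 2 - s.re) ≤ A * L * r := mul_le_mul_of_nonneg_left h6 (by positivity)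
              _ = r * A * L := by ring
              _ ≤ _ := mul_le_mul_of_nonneg_right hr2 hLp.le
          have h7 : 0 ≤ η * L := by positivity
          rw [hκ] at *
          nlinarith

/-- Cauchy's inequality in a disc -/
theorem cauchy {f : ℂ → ℂ} {c : ℂ} {r M : ℝ} (hr : 0 < r) (hf : ∀ s : ℂ, ‖s - c‖ ≤ r → AnalyticAt ℂ f s)
    (hM : ∀ s : ℂ, ‖s - c‖ ≤ r → ‖f s‖ ≤ M) (n : ℕ) : ‖iteratedDeriv n f c‖ ≤ n.factorial * M / r ^ n := by
  refine norm_iteratedDeriv_le_of_forall_mem_sphere_norm_le n hr ?_ ?_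
  · refine DifferentiableOn.diffContOnCl_ball (U := closedBall c r) ?_ subset_rfl
    intro s hs
    rw [mem_closedBall, dist_eq_norm] at hs
    exact (hf s hs).differentiableAt.differentiableWithinAt
  · intro s hs
    rw [mem_sphere, dist_eq_norm] at hs
    exact hM s hs.le

end Pool.Agent.Q97.PA
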