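import Pool.Agent.Q240.GS.Fam
import Pool.Agent.Q97.PA.C

/-! # Local approximation by polynomials, for `GL(m)` -/

set_option autoImplicit false

namespace Pool.Agent.Q97.PA

open Complex Polynomial Metric Set Filter Topology
open Pool.Agent.W169.HF Q240.GS

variable {m : ℕ}

lemma LL_an {N : ℝ} {μ : Fin m → ℂ} {Λ : ℂ → ℂ} (h : Ob N μ Λ) (s : ℂ) : AnalyticAt ℂ (Q240.GS.LL μ Λ) s := by
  obtain ⟨α, ε, d, -⟩ := h
  exact (Q240.GS.LL_diff d.entire).analyticAt s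

/-- the data near the height `T` -/
theorem wbT (hm : 1 ≤ m) {Y e : ℝ} (hY : 0 ≤ Y) (he : 0 < e) : ∃ C0 : ℝ, 1 ≤ C0 ∧
    ∀ (N : ℝ) (μ : Fin m → ℂ) (Λ : ℂ → ℂ), Ob N μ Λ → ∀ T : ℝ, C0 ≤ Real.log (Q240.GS.cnd N μ T) →
      WB (fun s => Q240.GS.LL μ Λ (s + T * I)) (Real.log (Q240.GS.cnd N μ T)) Y e 18 := by
  obtain ⟨C0, hC0, H⟩ := base_ofE m hm Y (e / 2) 1 hY (by positivity) one_pos
  have hm0 : (0 : ℝ) ≤ m := Nat.cast_nonneg m
  refine ⟨C0 + 14 * m, by linarith, ?_⟩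
  rintro N μ Λ ⟨α, ε, d, hnz⟩ T hT
  obtain ⟨b1, b2⟩ := el_bd d.one_le d.re_le T
  obtain ⟨L, hL⟩ : ∃ L : ℝ, L = 2 * Q240.GS.el N μ T := ⟨_, rfl⟩
  obtain ⟨W, hW⟩ : ∃ W : ℝ, W = Real.log (Q240.GS.cnd N μ T) := ⟨_, rfl⟩
  rw [← hL, ← hW] at b1 b2
  rw [← hW] at hT ⊢
  obtain ⟨hb, -⟩ := H N μ α ε Λ d hnz T (by rw [← hL]; linarith)
  rw [← hL] at hb
  have hLW : L ≤ 2 * W := by linarith
  have hf := hb.toWB
  refine ⟨fun s h1 h2 h3 => hf.an s h1 h2 h3, fun s h1 h2 h3 => (hf.grow s h1 h2 h3).trans ?_,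
    fun s h1 h2 h3 => (hf.right s h1 h2 h3).trans ?_⟩
  · exact Real.exp_le_exp.2 (by linarith)
  · apply Real.exp_le_exp.2
    calc e / 2 * L ≤ e / 2 * (2 * W) := mul_le_mul_of_nonneg_left hLW (by positivity)
      _ = _ := by ring

lemma sh_pt (t T : ℝ) : (⟨1 / 2, t⟩ : ℂ) + (T : ℂ) * I = (⟨1 / 2, t + T⟩ : ℂ) := by
  apply Complex.ext <;> simp

/-- polynomials grow slowly -/
lemma poly_xs {x : ℝ} (p : ℂ[X]) (hp : (p.natDegree : ℝ) + 1 ≤ x) : Dbl (9 * x) (fun z => p.eval z) := by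
  have h0 : 0 ≤ x := by
    have : (0 : ℝ) ≤ p.natDegree := Nat.cast_nonneg _
    linarith
  have h1 := xs_dbl (S := {0}) (p := fun _ => p) h0 (by simpa using hp) (by simpa using h0)
  have e : xs {0} (fun _ => p) = fun z => p.eval z := by
    funext z
    simp [xs]
  rwa [e] at h1

/-- local approximation near `T` decides the size at `T` -/
theorem gl_iter (hm : 1 ≤ m) {h ε : ℝ} (hh0 : 0 < h) (hh1 : h ≤ 1) (hε : 0 < ε) : ∃ ν Y C0 : ℝ, 0 < ν ∧ 1 ≤ Y ∧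
    ∀ (N : ℝ) (μ : Fin m → ℂ) (Λ : ℂ → ℂ), Ob N μ Λ → ∀ T : ℝ, C0 ≤ Real.log (Q240.GS.cnd N μ T) →
      (∀ y : ℝ, |y - T| ≤ Y → ∃ g : ℂ → ℂ, Dbl (ν * Real.log (Q240.GS.cnd N μ T)) g ∧ ∀ t : ℝ, |t - y| ≤ h →
        ‖Q240.GS.LL μ Λ (⟨1 / 2, t⟩ : ℂ) - g (t : ℂ)‖ ≤ Real.exp (ν * Real.log (Q240.GS.cnd N μ T))) →
      ‖Q240.GS.LL μ Λ (⟨1 / 2, T⟩ : ℂ)‖ ≤ Real.exp (ε * Real.log (Q240.GS.cnd N μ T)) := by
  obtain ⟨ν, e, X, L0, hν, he, hX, hL0, H⟩ := iter (A := 18) (by norm_num) hh0 hh1 hε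
  obtain ⟨C0, hC0, HW⟩ := wbT (m := m) hm (Y := X) (e := e) (by linarith) he
  refine ⟨ν, X, max C0 L0, hν, hX, fun N μ Λ hO T hT hp => ?_⟩
  have h1 := H (fun s => Q240.GS.LL μ Λ (s + T * I)) _ ((le_max_right _ _).trans hT)
    (HW N μ Λ hO T ((le_max_left _ _).trans hT)) (fun y hy => by
      obtain ⟨p, hp1, hp2⟩ := hp (y + T) (by rw [add_sub_cancel_right]; exact hy)
      refine ⟨fun s => p ((T : ℂ) + 1 * s), hp1.comp (T : ℂ) (v := 1) norm_one, fun t ht => ?_⟩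
      have e1 : (T : ℂ) + 1 * (t : ℂ) = ((t + T : ℝ) : ℂ) := by push_cast; ring
      simp only [e1]
      rw [sh_pt]
      exact hp2 (t + T) (by rw [add_sub_add_right_eq_sub]; exact ht))
  simp only [sh_pt, zero_add] at h1
  exact h1

lemma n_exp (n : ℕ) : ((n : ℝ) + 1) * 2 ^ n ≤ Real.exp (2 * n) := by
  have h1 : (n : ℝ) + 1 ≤ Real.exp n := Real.add_one_le_exp _
  have h2 : (2 : ℝ) ^ n ≤ Real.exp n := by
    have : Real.exp n = Real.exp 1 ^ n := by rw [← Real.exp_nat_mul, mul_one]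
    rw [this]
    exact pow_le_pow_left₀ (by norm_num) two_le_exp n
  calc _ ≤ Real.exp n * Real.exp n := mul_le_mul h1 h2 (by positivity) (Real.exp_pos _).le
    _ = _ := by rw [← Real.exp_add]; ring_nf

/-- from one derivative to a polynomial -/
theorem der_poly {f : ℂ → ℂ} (hf : ∀ s, AnalyticAt ℂ f s) {h : ℝ} (hh : 0 < h) (y : ℝ) {n : ℕ} {M : ℝ}
    (hM : ∀ t : ℝ, |t - y| ≤ h → ‖iteratedDeriv n f (⟨1 / 2, t⟩ : ℂ)‖ ≤ n.factorial * h⁻¹ ^ n * Real.exp M) :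
    ∃ p : ℂ[X], p.natDegree ≤ n ∧ ∀ t : ℝ, |t - y| ≤ h →
      ‖f (⟨1 / 2, t⟩ : ℂ) - p.eval (t : ℂ)‖ ≤ Real.exp (2 * n + M) := by
  obtain ⟨p, hp1, hp2⟩ := taylor_seg (f := f) (a := y - h) (b := y + h) (by linarith) (fun t _ _ => hf _) n
    (M := h⁻¹ ^ n * Real.exp M) (fun t h1 h2 => by
      rw [← mul_assoc]
      refine hM t ?_
      rw [abs_le]
      constructor <;> linarith)
  refine ⟨p, hp1, fun t ht => ?_⟩
  rw [abs_le] at ht
  refine (hp2 t (by linarith) (by linarith)).trans ?_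
  have e1 : ((n : ℝ) + 1) * (y + h - (y - h)) ^ n * (h⁻¹ ^ n * Real.exp M) = ((n : ℝ) + 1) * 2 ^ n * Real.exp M := by
    have e2 : (y + h - (y - h)) = 2 * h := by ring
    have e3 : h ^ n * h⁻¹ ^ n = 1 := by rw [← mul_pow, mul_inv_cancel₀ hh.ne', one_pow]
    rw [e2, mul_pow]
    calc _ = ((n : ℝ) + 1) * 2 ^ n * Real.exp M * (h ^ n * h⁻¹ ^ n) := by ring
      _ = _ := by rw [e3, mul_one]
  rw [e1, Real.exp_add]
  exact mul_le_mul_of_nonneg_right (n_exp n) (Real.exp_pos _).le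

/-- one derivative near `T` decides the size at `T` -/
theorem gl_der (hm : 1 ≤ m) {h ε : ℝ} (hh0 : 0 < h) (hh1 : h ≤ 1) (hε : 0 < ε) : ∃ ν Y C0 : ℝ, 0 < ν ∧ 1 ≤ Y ∧
    ∀ (N : ℝ) (μ : Fin m → ℂ) (Λ : ℂ → ℂ), Ob N μ Λ → ∀ T : ℝ, C0 ≤ Real.log (Q240.GS.cnd N μ T) →
      (∀ y : ℝ, |y - T| ≤ Y → ∃ n : ℕ, n ≤ ν * Real.log (Q240.GS.cnd N μ T) ∧ ∀ t : ℝ, |t - y| ≤ h →
        ‖iteratedDeriv n (Q240.GS.LL μ Λ) (⟨1 / 2, t⟩ : ℂ)‖ ≤
          n.factorial * h⁻¹ ^ n * Real.exp (ν * Real.log (Q240.GS.cnd N μ T))) →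
      ‖Q240.GS.LL μ Λ (⟨1 / 2, T⟩ : ℂ)‖ ≤ Real.exp (ε * Real.log (Q240.GS.cnd N μ T)) := by
  obtain ⟨ν, Y, C0, hν, hY, H⟩ := gl_iter hm hh0 hh1 hε
  refine ⟨ν / 18, Y, max C0 (18 / ν), by positivity, hY, fun N μ Λ hO T hT hp => H N μ Λ hO T
    ((le_max_left _ _).trans hT) fun y hy => ?_⟩
  have hW1 : 18 / ν ≤ Real.log (Q240.GS.cnd N μ T) := (le_max_right _ _).trans hT
  have hW : 0 ≤ Real.log (Q240.GS.cnd N μ T) := le_trans (by positivity) hW1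
  rw [div_le_iff₀ hν] at hW1
  obtain ⟨n, hn, hd⟩ := hp y hy
  obtain ⟨p, hp1, hp2⟩ := der_poly (LL_an hO) hh0 y hd
  have h1 : (p.natDegree : ℝ) ≤ n := by exact_mod_cast hp1
  have h2 : 0 ≤ ν * Real.log (Q240.GS.cnd N μ T) := by positivity
  refine ⟨fun z => p.eval z, (poly_xs p (x := (p.natDegree : ℝ) + 1) le_rfl).mono ?_,
    fun t ht => (hp2 t ht).trans (Real.exp_le_exp.2 ?_)⟩
  · linarith
  · linarith

/-- a bound for the values gives one for the derivatives -/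
theorem gl_cauchy (hm : 1 ≤ m) {ε : ℝ} (hε : 0 < ε) : ∃ ν Y C0 : ℝ, 0 < ν ∧ 1 ≤ Y ∧
    ∀ (N : ℝ) (μ : Fin m → ℂ) (Λ : ℂ → ℂ), Ob N μ Λ → ∀ T B : ℝ, 0 ≤ B → C0 ≤ Real.log (Q240.GS.cnd N μ T) →
      (∀ t : ℝ, |t - T| ≤ Y → ‖Q240.GS.LL μ Λ (⟨1 / 2, t⟩ : ℂ)‖ ≤ Real.exp (B * Real.log (Q240.GS.cnd N μ T))) →
      ∀ n : ℕ, n ≤ ν * Real.log (Q240.GS.cnd N μ T) → ∀ t : ℝ, |t - T| ≤ 1 →
        ‖iteratedDeriv n (Q240.GS.LL μ Λ) (⟨1 / 2, t⟩ : ℂ)‖ ≤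
          n.factorial * Real.exp ((B + ε) * Real.log (Q240.GS.cnd N μ T)) := by
  obtain ⟨X, e, r, hX, he, hr0, hr1, H⟩ := disc (A := 18) (η := ε / 2) (by norm_num) (by positivity)
  obtain ⟨C0, hC0, HW⟩ := wbT (m := m) hm (Y := X + 2) (e := e) (by linarith) he
  have hlr : 0 < Real.log r⁻¹ := Real.log_pos ((one_lt_inv₀ hr0).2 (by linarith))
  refine ⟨ε / (2 * Real.log r⁻¹), X + 1, C0, by positivity, by linarith, fun N μ Λ hO T B hB hT hl n hn t ht => ?_⟩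
  obtain ⟨W, hW⟩ : ∃ W : ℝ, W = Real.log (Q240.GS.cnd N μ T) := ⟨_, rfl⟩
  have hwb := HW N μ Λ hO T hT
  rw [← hW] at hT hl hn hwb ⊢
  have h1 := H (fun s => Q240.GS.LL μ Λ (s + T * I)) W (X + 2) (t - T) B (by linarith) hwb
    (by linarith) hB (fun u hu => by
      rw [sh_pt]
      refine hl _ ?_
      rw [add_sub_cancel_right]
      calc |u| = |(u - (t - T)) + (t - T)| := by ring_nf
        _ ≤ |u - (t - T)| + |t - T| := abs_add_le _ _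
        _ ≤ _ := by linarith)
  have h2 := cauchy (f := Q240.GS.LL μ Λ) (c := (⟨1 / 2, t⟩ : ℂ)) hr0 (fun s _ => LL_an hO s)
    (M := Real.exp ((B + ε / 2) * W)) (fun s hs => by
      have h3 := h1 (s - T * I) (by
        have e1 : s - T * I - (⟨1 / 2, t - T⟩ : ℂ) = s - (⟨1 / 2, t⟩ : ℂ) := by
          apply Complex.ext
          · simp
          · simp
        rw [e1]
        exact hs)
      simp only [sub_add_cancel] at h3
      exact h3) n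
  refine h2.trans ?_
  rw [mul_div_assoc]
  apply mul_le_mul_of_nonneg_left _ (by positivity)
  have e3 : Real.exp ((B + ε / 2) * W) / r ^ n = Real.exp ((B + ε / 2) * W + n * Real.log r⁻¹) := by
    rw [Real.exp_add, Real.exp_nat_mul, Real.exp_log (inv_pos.2 hr0), inv_pow, div_eq_mul_inv]
  rw [e3]
  apply Real.exp_le_exp.2
  have h4 : n * Real.log r⁻¹ ≤ ε / 2 * W := by
    generalize Real.log r⁻¹ = l at hn hlr ⊢
    calc n * l ≤ ε / (2 * l) * W * l := mul_le_mul_of_nonneg_right hn hlr.le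
      _ = _ := by field_simp
  linarith

lemma pow_quarter (n : ℕ) : ((n : ℝ) + 1) * 2 ^ n ≤ 2 * (4 ^ n * Real.exp (-(n / 4))) := by
  have h1 : ((n : ℝ) + 1) ≤ 2 * (3 / 2) ^ n := by
    have h2 := one_add_mul_le_pow (a := (1 / 2 : ℝ)) (by norm_num) n
    have h3 : (1 + 1 / 2 : ℝ) = 3 / 2 := by norm_num
    rw [h3] at h2
    linarith
  have h2 : (3 : ℝ) ^ n ≤ 4 ^ n * Real.exp (-(n / 4)) := by
    have h3 : (3 : ℝ) / 4 ≤ Real.exp (-(1 / 4)) := by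
      have := Real.add_one_le_exp (-(1 / 4) : ℝ)
      linarith
    have h4 : ((3 : ℝ) / 4) ^ n ≤ Real.exp (-(1 / 4)) ^ n := pow_le_pow_left₀ (by norm_num) h3 n
    rw [← Real.exp_nat_mul] at h4
    have e1 : (n : ℝ) * -(1 / 4) = -(n / 4) := by ring
    rw [e1, div_pow, div_le_iff₀ (by positivity)] at h4
    linarith
  calc _ ≤ 2 * (3 / 2) ^ n * 2 ^ n := mul_le_mul_of_nonneg_right h1 (by positivity)
    _ = 2 * 3 ^ n := by rw [mul_assoc, ← mul_pow]; norm_num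
    _ ≤ _ := mul_le_mul_of_nonneg_left h2 (by norm_num)

/-- derivatives of high order, unconditionally -/
theorem gl_high (hm : 1 ≤ m) {K : ℝ} (hK : 0 < K) : ∃ C0 : ℝ, 1 ≤ C0 ∧
    ∀ (N : ℝ) (μ : Fin m → ℂ) (Λ : ℂ → ℂ), Ob N μ Λ → ∀ T : ℝ, C0 ≤ Real.log (Q240.GS.cnd N μ T) →
      (∀ n : ℕ, (K + 18) * Real.log (Q240.GS.cnd N μ T) ≤ n → ∀ t : ℝ, |t - T| ≤ 1 →
        ‖iteratedDeriv n (Q240.GS.LL μ Λ) (⟨1 / 2, t⟩ : ℂ)‖ ≤
          n.factorial * Real.exp (-K * Real.log (Q240.GS.cnd N μ T))) ∧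
      ∃ p : ℂ[X], p.natDegree ≤ 4 * (K + 20) * Real.log (Q240.GS.cnd N μ T) ∧ ∀ t : ℝ, |t - T| ≤ 1 →
        ‖Q240.GS.LL μ Λ (⟨1 / 2, t⟩ : ℂ) - p.eval (t : ℂ)‖ ≤ Real.exp (-K * Real.log (Q240.GS.cnd N μ T)) := by
  obtain ⟨C0, hC0, HW⟩ := wbT (m := m) hm (Y := 5) (e := 1) (by norm_num) one_pos
  refine ⟨C0, hC0, fun N μ Λ hO T hT => ?_⟩
  obtain ⟨W, hW⟩ : ∃ W : ℝ, W = Real.log (Q240.GS.cnd N μ T) := ⟨_, rfl⟩
  have hwb := HW N μ Λ hO T hT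
  rw [← hW] at hT hwb ⊢
  have hW1 : 1 ≤ W := by linarith
  have hc : ∀ n : ℕ, ∀ t : ℝ, |t - T| ≤ 1 → ‖iteratedDeriv n (Q240.GS.LL μ Λ) (⟨1 / 2, t⟩ : ℂ)‖ ≤
      n.factorial * (Real.exp (18 * W) / 4 ^ n) := by
    intro n t ht
    have h2 := cauchy (f := Q240.GS.LL μ Λ) (c := (⟨1 / 2, t⟩ : ℂ)) (r := 4) (by norm_num) (fun s _ => LL_an hO s)
      (M := Real.exp (18 * W)) (fun s hs => by
        have hre : |s.re - 1 / 2| ≤ 4 := by
          have h3 := (abs_re_le_norm (s - (⟨1 / 2, t⟩ : ℂ))).trans hs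
          have e : (s - (⟨1 / 2, t⟩ : ℂ)).re = s.re - 1 / 2 := by simp
          rwa [e] at h3
        have him : |s.im - t| ≤ 4 := by
          have h3 := (abs_im_le_norm (s - (⟨1 / 2, t⟩ : ℂ))).trans hs
          have e : (s - (⟨1 / 2, t⟩ : ℂ)).im = s.im - t := by simp
          rwa [e] at h3
        rw [abs_le] at hre
        have h3 := hwb.grow (s - T * I) (by
          have e1 : (s - T * I).im = (s.im - t) + (t - T) := by simp
          rw [e1]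
          exact (abs_add_le _ _).trans (by linarith)) (by simp; linarith) (by simp; linarith)
        simp only [sub_add_cancel] at h3
        exact h3) n
    rwa [mul_div_assoc] at h2
  refine ⟨fun n hn t ht => (hc n t ht).trans (mul_le_mul_of_nonneg_left ?_ (by positivity)), ?_⟩
  · rw [div_le_iff₀ (by positivity)]
    have h1 : Real.exp n ≤ (4 : ℝ) ^ n := by
      have : Real.exp n = Real.exp 1 ^ n := by rw [← Real.exp_nat_mul, mul_one]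
      rw [this]
      refine pow_le_pow_left₀ (Real.exp_pos _).le ?_ n
      have := Real.exp_one_lt_d9
      linarith
    calc Real.exp (18 * W) ≤ Real.exp (-K * W + n) := Real.exp_le_exp.2 (by linarith)
      _ = Real.exp (-K * W) * Real.exp n := Real.exp_add _ _
      _ ≤ _ := mul_le_mul_of_nonneg_left h1 (Real.exp_pos _).le
  · obtain ⟨n, hn⟩ : ∃ n : ℕ, n = ⌈4 * (K + 19) * W⌉₊ := ⟨_, rfl⟩
    have hn1 : 4 * (K + 19) * W ≤ n := by rw [hn]; exact Nat.le_ceil _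
    have hn2 : (n : ℝ) ≤ 4 * (K + 20) * W := by
      have : (n : ℝ) < 4 * (K + 19) * W + 1 := by rw [hn]; exact Nat.ceil_lt_add_one (by positivity)
      nlinarith
    obtain ⟨p, hp1, hp2⟩ := taylor_seg (f := Q240.GS.LL μ Λ) (a := T - 1) (b := T + 1) (by linarith)
      (fun t _ _ => LL_an hO _) n (M := Real.exp (18 * W) / 4 ^ n) (fun t h1 h2 => hc n t (by
        rw [abs_le]
        constructor <;> linarith))
    refine ⟨p, le_trans (by exact_mod_cast hp1) hn2, fun t ht => ?_⟩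
    rw [abs_le] at ht
    refine (hp2 t (by linarith) (by linarith)).trans ?_
    have e1 : (T + 1 - (T - 1)) = 2 := by ring
    rw [e1]
    have h4 : (0 : ℝ) < 4 ^ n := by positivity
    calc ((n : ℝ) + 1) * 2 ^ n * (Real.exp (18 * W) / 4 ^ n) ≤
          2 * (4 ^ n * Real.exp (-(n / 4))) * (Real.exp (18 * W) / 4 ^ n) :=
          mul_le_mul_of_nonneg_right (pow_quarter n) (by positivity)
      _ = 2 * (Real.exp (18 * W) * Real.exp (-(n / 4))) := by field_simp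
      _ = 2 * Real.exp (18 * W - n / 4) := by rw [← Real.exp_add]; ring_nf
      _ ≤ Real.exp 1 * Real.exp (18 * W - n / 4) := mul_le_mul_of_nonneg_right two_le_exp (Real.exp_pos _).le
      _ = Real.exp (1 + (18 * W - n / 4)) := (Real.exp_add _ _).symm
      _ ≤ _ := Real.exp_le_exp.2 (by linarith)

/-- the constant -/
noncomputable def kp (h : ℝ) : ℝ := (dl h / 35) ^ 2 / 48

lemma kp_pos {h : ℝ} (h0 : 0 < h) : 0 < kp h := by
  have := dl_pos h0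
  unfold kp
  positivity

/-- one window, below the convexity bound -/
theorem gl_sub (hm : 1 ≤ m) {h d : ℝ} (hh0 : 0 < h) (hh1 : h ≤ 1) (hd0 : 0 < d) (hd1 : d ≤ 1 / 4) : ∃ Y C0 : ℝ, 1 ≤ Y ∧
    ∀ (N : ℝ) (μ : Fin m → ℂ) (Λ : ℂ → ℂ), Ob N μ Λ → ∀ T : ℝ, C0 ≤ Real.log (Q240.GS.cnd N μ T) →
      (∀ t : ℝ, |t - T| ≤ Y → ‖Q240.GS.LL μ Λ (⟨1 / 2, t⟩ : ℂ)‖ ≤
        Real.exp ((1 / 4 + kp h * d) * Real.log (Q240.GS.cnd N μ T))) →
      ∀ g : ℂ → ℂ, Dbl (kp h * d * Real.log (Q240.GS.cnd N μ T)) g → (∀ t : ℝ, |t - T| ≤ h →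
        ‖Q240.GS.LL μ Λ (⟨1 / 2, t⟩ : ℂ) - g (t : ℂ)‖ ≤ Real.exp ((1 / 4 - d / 2) * Real.log (Q240.GS.cnd N μ T))) →
      ∀ t : ℝ, |t - T| ≤ h → ‖Q240.GS.LL μ Λ (⟨1 / 2, t⟩ : ℂ)‖ ≤
        Real.exp ((1 / 4 - kp h * d) * Real.log (Q240.GS.cnd N μ T)) := by
  obtain ⟨w, hw⟩ : ∃ w : ℝ, w = dl h / 35 := ⟨_, rfl⟩
  have hdl0 := dl_pos hh0
  have hdl1 := dl_le h
  have hw0 : 0 < w := by rw [hw]; positivity
  have hw1 : w ≤ 1 / 280 := by rw [hw]; linarith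
  obtain ⟨η, hη⟩ : ∃ η : ℝ, η = w * d / 16 := ⟨_, rfl⟩
  have hη0 : 0 < η := by rw [hη]; positivity
  have hηd : η ≤ 1 / 8 := by
    rw [hη]
    nlinarith
  obtain ⟨X, e, hX, he, H⟩ := step (A := 18) (η := η) (by norm_num) hη0 hh0 hh1
  obtain ⟨C0, hC0, HW⟩ := wbT (m := m) hm (Y := X) (e := e) (by linarith) he
  refine ⟨X, max C0 (48 / (w ^ 2 * d)), hX, fun N μ Λ hO T hT hl p hp1 hp2 t ht => ?_⟩
  obtain ⟨W, hW⟩ : ∃ W : ℝ, W = Real.log (Q240.GS.cnd N μ T) := ⟨_, rfl⟩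
  have hwb := HW N μ Λ hO T ((le_max_left _ _).trans hT)
  rw [← hW] at hT hwb hl hp1 hp2 ⊢
  have hW1 : 1 ≤ W := by linarith [(le_max_left _ _).trans hT]
  have hW2 := (le_max_right _ _).trans hT
  have hWp : 0 < W := by linarith
  have hkp : kp h = w ^ 2 / 48 := by unfold kp; rw [hw]
  have hkd : 0 ≤ kp h * d := by rw [hkp]; positivity
  have h1 := H (fun s => Q240.GS.LL μ Λ (s + T * I)) W X 0 (1 / 4 + kp h * d) (1 / 4 - d / 2)
    (kp h * d * W) (fun s => p ((T : ℂ) + 1 * s)) hW1 hwb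
    (by rw [abs_zero]; linarith) (by linarith) (by linarith) (by linarith) (by positivity)
    (hp1.comp (T : ℂ) (v := 1) norm_one) (fun u hu => by
      rw [sh_pt]
      refine hl _ ?_
      rw [add_sub_cancel_right]
      simpa using hu) (fun u hu => by
      have e1 : (T : ℂ) + 1 * (u : ℂ) = ((u + T : ℝ) : ℂ) := by push_cast; ring
      simp only [e1]
      rw [sh_pt]
      refine hp2 _ ?_
      rw [add_sub_cancel_right]
      simpa using hu) (t - T) (by simpa using ht)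
  simp only [sh_pt, sub_add_cancel] at h1
  refine h1.trans (Real.exp_le_exp.2 ?_)
  rw [← hw]
  have e1 : 35 * (kp h * d * W + 3) / dl h = w * d / 48 * W + 3 / w := by
    rw [hkp, hw]
    field_simp
  rw [e1]
  have h2 : w * d / 48 * W + 3 / w ≤ w * d / 8 * W := by
    have h6 : 0 ≤ w * d * W := by positivity
    have h5 : 3 / w ≤ w * d / 16 * W := by
      rw [div_le_iff₀ (by positivity)] at hW2 ⊢
      nlinarith
    linarith
  have h3 : (1 - w) * (1 / 4 + kp h * d + η) + w * (1 / 4 - d / 2) + w * d / 8 ≤ 1 / 4 - kp h * d := by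
    rw [hkp, hη]
    have : w ^ 2 * d ≤ w * d / 280 := by nlinarith [mul_pos hw0 hd0]
    have h6 : 0 ≤ w ^ 3 * d := by positivity
    have h7 : 0 ≤ w ^ 2 * d := by positivity
    nlinarith [mul_pos hw0 hd0]
  calc _ ≤ ((1 - w) * (1 / 4 + kp h * d + η) + w * (1 / 4 - d / 2)) * W + w * d / 8 * W := by linarith
    _ = ((1 - w) * (1 / 4 + kp h * d + η) + w * (1 / 4 - d / 2) + w * d / 8) * W := by ring
    _ ≤ _ := mul_le_mul_of_nonneg_right h3 hWp.le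

end Pool.Agent.Q97.PA
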