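import Pool.Agent.Q240.GS.Ex3
import Pool.Agent.Q97.PA.C

/-! # Exponential polynomials of small complexity do not approximate with high precision -/

set_option autoImplicit false

namespace Pool.Agent.Q97.PA

open Complex Polynomial Metric Set Filter Topology
open Q240.GS (WB WL BaseE local_plW)
open Q240.LH (rect_max)

/-- the first half of the core inequality: a bound for the approximating function -/
theorem core_g {δ : ℝ} (hδ : 0 < δ) (hδ1 : δ ≤ 1 / 8) {h : ℝ} (hh0 : 0 < h) (hh : 2 * δ ≤ h ^ 2)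
    {F : ℂ → ℂ} (hF : ∀ s : ℂ, 0 ≤ s.re → s.re ≤ 2 → |s.im| ≤ 2 → DifferentiableAt ℂ F s) {M m : ℝ} (hmM : m ≤ M)
    (hM : ∀ s : ℂ, 0 ≤ s.re → s.re ≤ 2 → |s.im| ≤ 2 → ‖F s‖ ≤ Real.exp M)
    (hr : ∀ s : ℂ, ‖s - 9 / 8‖ ≤ 1 / 8 → ‖F s‖ ≤ Real.exp m) (g : ℂ → ℂ) {D : ℝ} (hD : 0 ≤ D) (hg : Dbl D g)
    (hp : ∀ s : ℂ, s.re = 0 → |s.im| ≤ h → ‖F s - g s‖ ≤ Real.exp m) :
    ∀ s : ℂ, 0 ≤ s.re → s.re ≤ 2 → |s.im| ≤ 2 → ‖g s‖ ≤ Real.exp (M + (D + 2) / (δ / 35)) := by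
  obtain ⟨w, hw⟩ : ∃ w : ℝ, w = δ / 35 := ⟨_, rfl⟩
  have hw0 : 0 < w := by rw [hw]; positivity
  have hw1 : w ≤ 1 := by rw [hw]; linarith
  obtain ⟨z0, hz0, hz0m⟩ := (isCompact_closedBall (9 / 8 : ℂ) (1 / 8 : ℝ)).exists_isMaxOn
    ⟨9 / 8, mem_closedBall_self (by norm_num)⟩ (hg.1.continuous.norm.continuousOn)
  obtain ⟨A, hA⟩ : ∃ A : ℝ, A = ‖g z0‖ := ⟨_, rfl⟩
  have hA0 : 0 ≤ A := by rw [hA]; exact norm_nonneg _
  have hAd : ∀ z : ℂ, ‖z - 9 / 8‖ ≤ 1 / 8 → ‖g z‖ ≤ A := by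
    intro z hz
    rw [hA]
    exact hz0m (show z ∈ closedBall (9 / 8 : ℂ) (1 / 8 : ℝ) by rw [mem_closedBall, dist_eq_norm]; exact hz)
  have hAr : ∀ z : ℂ, 0 ≤ z.re → z.re ≤ 2 → |z.im| ≤ 2 → ‖g z‖ ≤ A * Real.exp D := by
    intro z h3 h4 h5
    refine hg.2 (9 / 8) A hAd z ?_
    rw [← sq_le_sq₀ (norm_nonneg _) (by norm_num), ← normSq_eq_norm_sq, normSq_apply]
    have e1 : (z - 9 / 8).re = z.re - 9 / 8 := by simp
    have e2 : (z - 9 / 8).im = z.im := by simp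
    rw [e1, e2]
    have h9 : z.im * z.im ≤ 4 := by
      have := abs_le.1 h5
      nlinarith
    nlinarith
  obtain ⟨S, hS⟩ : ∃ S : ℝ, S = max (A * Real.exp D) (Real.exp M) := ⟨_, rfl⟩
  have hSM : Real.exp M ≤ S := by rw [hS]; exact le_max_right _ _
  have hSA : A * Real.exp D ≤ S := by rw [hS]; exact le_max_left _ _
  have hS0 : 0 < S := (Real.exp_pos _).trans_le hSM
  obtain ⟨σ, hσ⟩ : ∃ σ : ℝ, σ = Real.log S := ⟨_, rfl⟩
  have hσS : Real.exp σ = S := by rw [hσ, Real.exp_log hS0]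
  have hσM : M ≤ σ := by
    rw [← Real.exp_le_exp, hσS]
    exact hSM
  have htwo : ∀ z : ℂ, ‖z - 9 / 8‖ ≤ 1 / 8 → ‖F z - g z‖ ≤ Real.exp ((σ + 1) - (σ + 1 - m) * δ / 35) := by
    intro z hz
    refine half_two hδ hδ1 hh0 hh (F := fun z => F z - g z) (M := σ + 1) (m := m) (κ := (σ + 1 - m) * δ) ?_ ?_ ?_ hp ?_ hz
    · intro z h3 h4 h5
      exact (hF z h3 h4 h5).sub (hg.1 z)
    · exact mul_nonneg (by linarith) hδ.le
    · intro z h3 h4 h5
      have h6 := hM z h3 h4 h5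
      have h7 := hAr z h3 h4 h5
      calc ‖F z - g z‖ ≤ ‖F z‖ + ‖g z‖ := norm_sub_le _ _
        _ ≤ S + S := by linarith
        _ = S * 2 := by ring
        _ ≤ Real.exp σ * Real.exp 1 := by
            rw [hσS]
            exact mul_le_mul_of_nonneg_left two_le_exp hS0.le
        _ = _ := (Real.exp_add _ _).symm
    · rw [mul_div_assoc, div_self hδ.ne']
      linarith
  have hAb : A ≤ Real.exp (2 + (1 - w) * σ + w * m) := by
    have h3 : ‖z0 - 9 / 8‖ ≤ 1 / 8 := by rw [← dist_eq_norm]; exact hz0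
    have h4 := htwo z0 h3
    have h5 := hr z0 h3
    have h6 : A ≤ ‖F z0‖ + ‖F z0 - g z0‖ := by
      rw [hA]
      calc ‖g z0‖ = ‖F z0 - (F z0 - g z0)‖ := by rw [sub_sub_cancel]
        _ ≤ _ := norm_sub_le _ _
    have e1 : (σ + 1) - (σ + 1 - m) * δ / 35 = (1 - w) * (σ + 1) + w * m := by rw [hw]; ring
    rw [e1] at h4
    have h7 : Real.exp m ≤ Real.exp ((1 - w) * (σ + 1) + w * m) := by
      apply Real.exp_le_exp.2
      nlinarith
    calc A ≤ Real.exp ((1 - w) * (σ + 1) + w * m) * 2 := by linarith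
      _ ≤ Real.exp ((1 - w) * (σ + 1) + w * m) * Real.exp 1 :=
          mul_le_mul_of_nonneg_left two_le_exp (Real.exp_pos _).le
      _ = Real.exp ((1 - w) * (σ + 1) + w * m + 1) := (Real.exp_add _ _).symm
      _ ≤ _ := Real.exp_le_exp.2 (by linarith)
  have hσb : σ ≤ M + (D + 2) / w := by
    have h3 : 0 ≤ (D + 2) / w := by positivity
    rcases le_total (A * Real.exp D) (Real.exp M) with h4 | h4
    · rw [max_eq_right h4] at hS
      have : σ = M := by rw [hσ, hS, Real.log_exp]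
      linarith
    · rw [max_eq_left h4] at hS
      have h5 : Real.exp σ ≤ Real.exp (2 + (1 - w) * σ + w * m + D) := by
        rw [hσS, hS, Real.exp_add]
        exact mul_le_mul_of_nonneg_right hAb (Real.exp_pos _).le
      have h6 := Real.exp_le_exp.1 h5
      have h8 : σ ≤ m + (D + 2) / w := by
        rw [← sub_le_iff_le_add', le_div_iff₀ hw0]
        linarith
      linarith
  intro s h1 h2 h3
  rw [← hw]
  calc ‖g s‖ ≤ A * Real.exp D := hAr s h1 h2 h3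
    _ ≤ S := hSA
    _ = Real.exp σ := hσS.symm
    _ ≤ _ := Real.exp_le_exp.2 hσb

/-- the bound to the left of the critical line -/
theorem leftB {A η : ℝ} (hA : 0 < A) (hη : 0 < η) : ∃ X e : ℝ, 1 ≤ X ∧ 0 < e ∧
    ∀ (f : ℂ → ℂ) (L Y T B δ : ℝ) (E : Finset ℂ), 1 ≤ L → BaseE f L Y e A δ E → |T| + X ≤ Y → 0 ≤ B →
      (∀ t : ℝ, |t - T| ≤ X → ‖f (⟨1 / 2, t⟩ : ℂ)‖ ≤ Real.exp (B * L)) →
      ∀ s : ℂ, s.im = T → -3 / 2 ≤ s.re → s.re ≤ 1 / 2 → ‖f s‖ ≤ Real.exp ((1 / 2 - s.re + B + η) * L) := by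
  obtain ⟨κ, hκ⟩ : ∃ κ : ℝ, κ = η / 8 := ⟨_, rfl⟩
  have hκ0 : 0 < κ := by rw [hκ]; positivity
  obtain ⟨X1, hX1⟩ : ∃ X1 : ℝ, X1 = (A + 4 * κ) / κ + 1 := ⟨_, rfl⟩
  have hX11 : 1 ≤ X1 := by
    rw [hX1]
    have : 0 ≤ (A + 4 * κ) / κ := by positivity
    linarith
  have hX12 : A + 4 * κ ≤ κ * X1 ^ 2 := by
    have h1 : A + 4 * κ ≤ κ * X1 := by
      rw [hX1, mul_add, mul_div_cancel₀ _ hκ0.ne']
      linarith
    nlinarith
  refine ⟨X1, κ, hX11, hκ0, fun f L Y T B δ E hL hf hY hB hl s hs1 hs2 hs3 => ?_⟩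
  have hLp : 0 < L := by linarith
  have hyY : ∀ x : ℝ, |x - T| ≤ X1 → |x| ≤ Y := by
    intro x hx
    have h1 : |x| ≤ |x - T| + |T| := by
      calc |x| = |(x - T) + T| := by ring_nf
        _ ≤ _ := abs_add_le _ _
    linarith
  obtain ⟨g, hg⟩ : ∃ g : ℂ → ℂ, g = fun z => f z * cexp ((κ * L : ℝ) * (z - (⟨1 / 2, T⟩ : ℂ)) ^ 2 +
      (L : ℝ) * (z - 1 / 2)) := ⟨_, rfl⟩
  have hgn : ∀ z : ℂ, ‖g z‖ = ‖f z‖ * Real.exp (κ * L * ((z.re - 1 / 2) ^ 2 - (z.im - T) ^ 2) + L * (z.re - 1 / 2)) := by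
    intro z
    rw [hg]
    simp only
    rw [norm_mul, Complex.norm_exp, add_re, re_ofReal_mul, re_ofReal_mul]
    congr 3
    · simp [sq]
    · simp
  have hbox : ∀ z : ℂ, T - X1 ≤ z.im → z.im ≤ T + X1 → |z.im| ≤ Y := by
    intro z h3 h4
    apply hyY
    rw [abs_le]
    constructor <;> linarith
  have hkey : ‖g s‖ ≤ Real.exp ((B + 5 * κ) * L) := by
    refine rect_max (x0 := -3 / 2) (x1 := 1 / 2) (y0 := T - X1) (y1 := T + X1) (by norm_num) (by linarith) ?_ ?_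
      hs2 hs3 (by rw [hs1]; linarith) (by rw [hs1]; linarith)
    · intro z h3 h4 h5 h6
      rw [hg]
      have h7 := (hf.an z (hbox z h5 h6) (by linarith) (by linarith)).differentiableAt
      exact h7.mul (by fun_prop)
    · intro z h3 h4 h5 h6 h7
      rw [hgn]
      have hgr := hf.grow z (hbox z h5 h6) (by linarith) (by linarith)
      have hq : (z.re - 1 / 2) ^ 2 ≤ 4 := by nlinarith
      have hBL : 0 ≤ B * L := by positivity
      have hκL : 0 ≤ κ * L := by positivity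
      rcases h7 with h7 | h7 | h7
      · have hup := hf.upp z (hbox z h5 h6) (by linarith) (by linarith)
        calc _ ≤ Real.exp (L * (1 / 2 - z.re + κ)) *
                Real.exp (κ * L * ((z.re - 1 / 2) ^ 2 - (z.im - T) ^ 2) + L * (z.re - 1 / 2)) :=
              mul_le_mul_of_nonneg_right hup (Real.exp_pos _).le
          _ = Real.exp (L * (1 / 2 - z.re + κ) +
                (κ * L * ((z.re - 1 / 2) ^ 2 - (z.im - T) ^ 2) + L * (z.re - 1 / 2))) := (Real.exp_add _ _).symm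
          _ ≤ _ := by
              apply Real.exp_le_exp.2
              have h8 : κ * L * ((z.re - 1 / 2) ^ 2 - (z.im - T) ^ 2) ≤ κ * L * 4 :=
                mul_le_mul_of_nonneg_left (by nlinarith [sq_nonneg (z.im - T)]) hκL
              nlinarith
      · have e2 : z = (⟨1 / 2, z.im⟩ : ℂ) := by
          apply Complex.ext
          · exact h7
          · rfl
        have h8 : ‖f z‖ ≤ Real.exp (B * L) := by
          rw [e2]
          refine hl z.im ?_
          rw [abs_le]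
          constructor <;> linarith
        calc _ ≤ Real.exp (B * L) * Real.exp (κ * L * ((z.re - 1 / 2) ^ 2 - (z.im - T) ^ 2) + L * (z.re - 1 / 2)) :=
              mul_le_mul_of_nonneg_right h8 (Real.exp_pos _).le
          _ = Real.exp (B * L + (κ * L * ((z.re - 1 / 2) ^ 2 - (z.im - T) ^ 2) + L * (z.re - 1 / 2))) :=
              (Real.exp_add _ _).symm
          _ ≤ _ := by
              apply Real.exp_le_exp.2
              rw [h7]
              have h8 : κ * L * ((1 / 2 - 1 / 2) ^ 2 - (z.im - T) ^ 2) ≤ κ * L * 1 :=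
                mul_le_mul_of_nonneg_left (by nlinarith [sq_nonneg (z.im - T)]) hκL
              linarith
      · calc _ ≤ Real.exp (A * L) * Real.exp (κ * L * ((z.re - 1 / 2) ^ 2 - (z.im - T) ^ 2) + L * (z.re - 1 / 2)) :=
              mul_le_mul_of_nonneg_right hgr (Real.exp_pos _).le
          _ = Real.exp (A * L + (κ * L * ((z.re - 1 / 2) ^ 2 - (z.im - T) ^ 2) + L * (z.re - 1 / 2))) :=
              (Real.exp_add _ _).symm
          _ ≤ _ := by
              apply Real.exp_le_exp.2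
              have h9 : (z.im - T) ^ 2 = X1 ^ 2 := by
                rcases h7 with h7 | h7 <;> rw [h7] <;> ring
              rw [h9]
              have h8 : κ * L * ((z.re - 1 / 2) ^ 2 - X1 ^ 2) ≤ κ * L * 4 - (A + 4 * κ) * L := by
                have : κ * L * (z.re - 1 / 2) ^ 2 ≤ κ * L * 4 := mul_le_mul_of_nonneg_left hq hκL
                nlinarith
              have h10 : L * (z.re - 1 / 2) ≤ 0 :=
                mul_nonpos_of_nonneg_of_nonpos hLp.le (by linarith)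
              nlinarith
  rw [hgn] at hkey
  have h3 : ‖f s‖ = ‖f s‖ * Real.exp (κ * L * ((s.re - 1 / 2) ^ 2 - (s.im - T) ^ 2) + L * (s.re - 1 / 2)) *
      Real.exp (-(κ * L * ((s.re - 1 / 2) ^ 2 - (s.im - T) ^ 2) + L * (s.re - 1 / 2))) := by
    rw [mul_assoc, ← Real.exp_add, add_neg_cancel, Real.exp_zero, mul_one]
  rw [h3]
  calc _ ≤ Real.exp ((B + 5 * κ) * L) * Real.exp (-(κ * L * ((s.re - 1 / 2) ^ 2 - (s.im - T) ^ 2) + L * (s.re - 1 / 2))) :=
        mul_le_mul_of_nonneg_right hkey (Real.exp_pos _).le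
    _ = Real.exp ((B + 5 * κ) * L + -(κ * L * ((s.re - 1 / 2) ^ 2 - (s.im - T) ^ 2) + L * (s.re - 1 / 2))) :=
        (Real.exp_add _ _).symm
    _ ≤ _ := by
        apply Real.exp_le_exp.2
        rw [hs1, sub_self]
        have h4 : 0 ≤ κ * L * (s.re - 1 / 2) ^ 2 := by positivity
        have h7 : 0 ≤ η * L := by positivity
        rw [hκ] at *
        nlinarith

end Pool.Agent.Q97.PA
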