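import Pool.Agent.Q97.PA.F

/-! # High precision needs high complexity -/

set_option autoImplicit false

namespace Pool.Agent.Q97.PA

open Complex Polynomial Metric Set Filter Topology
open Q240.GS (WB WL BaseE local_plW good_pt)

/-- **High precision needs high complexity**: if `|f| ≤ exp(B L)` near, and `w K > (1 - w) B`, no function of slow
growth approximates `f` up to `exp(-K L)`. -/
theorem lower {A h B K : ℝ} (M : ℕ) (hA : 0 < A) (hh0 : 0 < h) (hB : 0 ≤ B)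
    (hK : (1 - dl h / 35) * B < dl h / 35 * K) : ∃ ν X e δ L0 : ℝ, 0 < ν ∧ 1 ≤ X ∧ 0 < e ∧ 0 < δ ∧ 1 ≤ L0 ∧
    ∀ (f : ℂ → ℂ) (L : ℝ) (E : Finset ℂ), L0 ≤ L → E.card ≤ M → BaseE f L X e A δ E →
      (∀ t : ℝ, |t| ≤ X → ‖f (⟨1 / 2, t⟩ : ℂ)‖ ≤ Real.exp (B * L)) →
      ∀ g : ℂ → ℂ, Dbl (ν * L) g → ¬ ∀ t : ℝ, |t| ≤ h → ‖f (⟨1 / 2, t⟩ : ℂ) - g (t : ℂ)‖ ≤ Real.exp (-K * L) := by
  obtain ⟨w, hw⟩ : ∃ w : ℝ, w = dl h / 35 := ⟨_, rfl⟩
  have hd0 := dl_pos hh0
  have hd1 := dl_le h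
  have hw0 : 0 < w := by rw [hw]; positivity
  have hw1 : w ≤ 1 / 280 := by rw [hw]; linarith
  rw [← hw] at hK
  have hK0 : 0 < K := by
    have h1 : 0 ≤ (1 - w) * B := mul_nonneg (by linarith) hB
    have h2 : 0 < w * K := by linarith
    exact pos_of_mul_pos_right h2 hw0.le
  obtain ⟨γ, hγ⟩ : ∃ γ : ℝ, γ = w * K - (1 - w) * B := ⟨_, rfl⟩
  have hγ0 : 0 < γ := by rw [hγ]; linarith
  obtain ⟨η, hη⟩ : ∃ η : ℝ, η = min (γ / 16) (1 / 16) := ⟨_, rfl⟩
  have hη0 : 0 < η := by rw [hη]; exact lt_min (by positivity) (by norm_num)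
  have hη1 : η ≤ γ / 16 := by rw [hη]; exact min_le_left _ _
  have hη2 : η ≤ 1 / 16 := by rw [hη]; exact min_le_right _ _
  obtain ⟨X1, e1, hX1, he1, H1⟩ := local_plW A η hA hη0
  obtain ⟨X2, e2, hX2, he2, H2⟩ := leftB hA hη0
  obtain ⟨ν, hν⟩ : ∃ ν : ℝ, ν = w * η / 8 := ⟨_, rfl⟩
  have hν0 : 0 < ν := by rw [hν]; positivity
  obtain ⟨d, hd⟩ : ∃ d : ℝ, d = 1 / (4 * ((M : ℝ) + 1)) := ⟨_, rfl⟩
  have hdp : 0 < d := by rw [hd]; positivity
  have hMd : M * d ≤ 1 / 4 := by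
    rw [hd, mul_one_div, div_le_div_iff₀ (by positivity) (by norm_num)]
    linarith
  refine ⟨ν, X1 + X2 + 2, min (min e1 e2) η, d / 2, 8 / (w * η), hν0, by linarith,
    lt_min (lt_min he1 he2) hη0, by positivity, ?_, ?_⟩
  · rw [le_div_iff₀ (by positivity)]
    nlinarith
  intro f L E hL hE hf hl g hg hcon
  have hL1 : 8 ≤ L * (w * η) := by rwa [div_le_iff₀ (by positivity)] at hL
  have hwη : w * η ≤ 1 := by nlinarith
  have hLp : 0 < L := by
    by_contra hneg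
    push Not at hneg
    nlinarith [mul_pos hw0 hη0]
  have hηL : 8 ≤ η * L := by
    have : L * (w * η) ≤ L * η := by
      apply mul_le_mul_of_nonneg_left _ hLp.le
      nlinarith
    linarith
  have hL8 : 1 ≤ L := by nlinarith
  have hEe1 : min (min e1 e2) η ≤ e1 := (min_le_left _ _).trans (min_le_left _ _)
  have hEe2 : min (min e1 e2) η ≤ e2 := (min_le_left _ _).trans (min_le_right _ _)
  have hEη : min (min e1 e2) η ≤ η := min_le_right _ _
  have hf1 : WB f L (X1 + X2 + 2) e1 A := hf.toWB.mono hLp.le le_rfl hEe1 le_rfl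
  have hfη : WB f L (X1 + X2 + 2) η A := hf.toWB.mono hLp.le le_rfl hEη le_rfl
  have hf2 : BaseE f L (X1 + X2 + 2) e2 A (d / 2) E := hf.mono hLp.le le_rfl hEe2 le_rfl le_rfl
  -- values on the right
  have hright : ∀ s : ℂ, 1 / 2 ≤ s.re → s.re ≤ 5 / 2 → |s.im| ≤ 2 → ‖f s‖ ≤ Real.exp ((B + η) * L) := by
    intro s h1 h2 h3
    by_cases h4 : s.re ≤ 2
    · refine H1 f L (X1 + X2 + 2) s.im (1 / 2) B hL8 hf1.wl (by linarith) (by norm_num) (by norm_num) hB ?_ s rfl h1 h4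
      intro z hz1 hz2
      have e2 : z = (⟨1 / 2, z.im⟩ : ℂ) := by
        apply Complex.ext
        · exact hz1
        · rfl
      rw [e2]
      refine hl z.im ?_
      calc |z.im| = |(z.im - s.im) + s.im| := by ring_nf
        _ ≤ |z.im - s.im| + |s.im| := abs_add_le _ _
        _ ≤ _ := by linarith
    · push Not at h4
      refine (hfη.right s (by linarith) (by linarith) h2).trans (Real.exp_le_exp.2 ?_)
      exact mul_le_mul_of_nonneg_right (by linarith) hLp.le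
  have hleft : ∀ s : ℂ, -3 / 2 ≤ s.re → s.re ≤ 1 / 2 → |s.im| ≤ 2 →
      ‖f s‖ ≤ Real.exp ((1 / 2 - s.re + B + η) * L) := by
    intro s h1 h2 h3
    refine H2 f L (X1 + X2 + 2) s.im B (d / 2) E hL8 hf2 (by linarith) hB (fun t ht => hl t ?_) s rfl h1 h2
    calc |t| = |(t - s.im) + s.im| := by ring_nf
      _ ≤ |t - s.im| + |s.im| := abs_add_le _ _
      _ ≤ _ := by linarith
  -- the functions in the centred coordinate
  obtain ⟨F, hF⟩ : ∃ F : ℂ → ℂ, F = fun s => f (s + 1 / 2) := ⟨_, rfl⟩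
  obtain ⟨G, hG⟩ : ∃ G : ℂ → ℂ, G = fun s => g (0 + (-I) * s) := ⟨_, rfl⟩
  have hGD : Dbl (ν * L) G := by
    rw [hG]
    exact hg.comp 0 (v := -I) (by rw [norm_neg, norm_I])
  have hνL : 0 ≤ ν * L := by positivity
  have hre : ∀ s : ℂ, (s + 1 / 2 : ℂ).re = s.re + 1 / 2 := fun s => by simp
  have him : ∀ s : ℂ, (s + 1 / 2 : ℂ).im = s.im := fun s => by simp
  have hFd : ∀ s : ℂ, -2 ≤ s.re → s.re ≤ 2 → |s.im| ≤ 2 → DifferentiableAt ℂ F s := by
    intro s h1 h2 h3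
    rw [hF]
    have h4 := hf.an (s + 1 / 2) (by rw [him]; linarith) (by rw [hre]; linarith) (by rw [hre]; linarith)
    exact h4.differentiableAt.comp s (by fun_prop)
  have hFr : ∀ s : ℂ, 0 ≤ s.re → s.re ≤ 2 → |s.im| ≤ 2 → ‖F s‖ ≤ Real.exp ((B + η) * L) := by
    intro s h1 h2 h3
    rw [hF]
    exact hright _ (by rw [hre]; linarith) (by rw [hre]; linarith) (by rw [him]; exact h3)
  have hF98 : ∀ s : ℂ, ‖s - 9 / 8‖ ≤ 1 / 8 → ‖F s‖ ≤ Real.exp (η * L) := by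
    intro s h1
    have g1 : |s.re - 9 / 8| ≤ 1 / 8 := by
      have h3 := (abs_re_le_norm (s - 9 / 8)).trans h1
      have e : (s - 9 / 8).re = s.re - 9 / 8 := by simp
      rwa [e] at h3
    have g2 : |s.im| ≤ 1 / 8 := by
      have h3 := (abs_im_le_norm (s - 9 / 8)).trans h1
      have e : (s - 9 / 8).im = s.im := by simp
      rwa [e] at h3
    rw [abs_le] at g1
    rw [hF]
    exact hfη.right _ (by rw [him]; linarith) (by rw [hre]; linarith) (by rw [hre]; linarith)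
  have hseg : ∀ s : ℂ, s.re = 0 → |s.im| ≤ h → ‖F s - G s‖ ≤ Real.exp (-K * L) := by
    intro s h1 h2
    have e1 : s + 1 / 2 = (⟨1 / 2, s.im⟩ : ℂ) := by
      apply Complex.ext <;> simp [h1]
    have e2 : (0 : ℂ) + (-I) * s = ((s.im : ℝ) : ℂ) := by
      apply Complex.ext <;> simp [h1]
    rw [hF, hG]
    simp only
    rw [e1, e2]
    exact hcon _ h2
  have hKm : Real.exp (-K * L) ≤ Real.exp (η * L) := Real.exp_le_exp.2 (by nlinarith)
  -- first bound for G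
  obtain ⟨σ, hσ⟩ : ∃ σ : ℝ, σ = (B + η) * L + (ν * L + 2) / (dl h / 35) := ⟨_, rfl⟩
  have hGr := core_g hd0 hd1 hh0 (dl_sq h) (F := F) (fun s h1 h2 h3 => hFd s (by linarith) h2 h3)
    (M := (B + η) * L) (m := η * L) (by nlinarith [mul_nonneg hB hLp.le]) hFr hF98 G hνL hGD
    (fun s h1 h2 => (hseg s h1 h2).trans hKm)
  rw [← hσ] at hGr
  have hσ2 : σ ≤ (B + 2 * η) * L := by
    rw [hσ, ← hw]
    have h1 : (ν * L + 2) / w ≤ η * L := by
      rw [div_le_iff₀ hw0, hν]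
      nlinarith
    linarith
  have hσ1 : (B + η) * L ≤ σ := by
    rw [hσ]
    have : 0 ≤ (ν * L + 2) / (dl h / 35) := by positivity
    linarith
  -- the difference near 13/8
  have hdiff : ∀ s : ℂ, ‖s - 9 / 8‖ ≤ 1 / 8 → ‖F s - G s‖ ≤ Real.exp (η * L) := by
    intro s hs
    have h1 := half_two hd0 hd1 hh0 (dl_sq h) (F := fun z => F z - G z) (M := σ + 1) (m := -K * L)
      (κ := (σ + 1 + K * L) * dl h) (fun z h3 h4 h5 => (hFd z (by linarith) h4 h5).sub (hGD.1 z))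
      (mul_nonneg (by nlinarith [mul_pos hK0 hLp, mul_nonneg hB hLp.le]) hd0.le)
      (fun z h3 h4 h5 => by
        calc ‖F z - G z‖ ≤ ‖F z‖ + ‖G z‖ := norm_sub_le _ _
          _ ≤ Real.exp σ + Real.exp σ := add_le_add ((hFr z h3 h4 h5).trans (Real.exp_le_exp.2 hσ1)) (hGr z h3 h4 h5)
          _ = Real.exp σ * 2 := by ring
          _ ≤ Real.exp σ * Real.exp 1 := mul_le_mul_of_nonneg_left two_le_exp (Real.exp_pos _).le
          _ = _ := (Real.exp_add _ _).symm) hseg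
      (by rw [mul_div_assoc, div_self hd0.ne']; linarith) hs
    refine h1.trans (Real.exp_le_exp.2 ?_)
    have e1 : σ + 1 - (σ + 1 + K * L) * dl h / 35 = (1 - w) * (σ + 1) - w * K * L := by rw [hw]; ring
    rw [e1]
    have h2 : (1 - w) * (σ + 1) ≤ (1 - w) * ((B + 2 * η) * L + 1) :=
      mul_le_mul_of_nonneg_left (by linarith) (by linarith)
    have h3 : (1 - w) * ((B + 2 * η) * L + 1) - w * K * L ≤ (-γ + 2 * η) * L + 1 := by
      rw [hγ]
      nlinarith [mul_pos hη0 hLp, mul_pos hw0 (mul_pos hη0 hLp)]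
    nlinarith
  have hG98 : ∀ s : ℂ, ‖s - 9 / 8‖ ≤ 1 / 8 → ‖G s‖ ≤ Real.exp (η * L + 1) := by
    intro s hs
    calc ‖G s‖ = ‖F s - (F s - G s)‖ := by rw [sub_sub_cancel]
      _ ≤ ‖F s‖ + ‖F s - G s‖ := norm_sub_le _ _
      _ ≤ Real.exp (η * L) + Real.exp (η * L) := add_le_add (hF98 s hs) (hdiff s hs)
      _ = Real.exp (η * L) * 2 := by ring
      _ ≤ Real.exp (η * L) * Real.exp 1 := mul_le_mul_of_nonneg_left two_le_exp (Real.exp_pos _).le
      _ = _ := (Real.exp_add _ _).symm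
  -- G on the left
  have hGl : ∀ s : ℂ, -2 ≤ s.re → s.re ≤ 0 → |s.im| ≤ 2 → ‖G s‖ ≤ Real.exp (2 * η * L) := by
    intro s h1 h2 h3
    have h4 : ∀ z : ℂ, ‖z - (-1)‖ ≤ 1 / 8 → ‖G z‖ ≤ Real.exp (η * L + 1) * Real.exp (ν * L) := by
      intro z hz
      refine hGD.2 (9 / 8) _ hG98 z ?_
      calc ‖z - 9 / 8‖ = ‖(z - (-1)) + (-17 / 8 : ℂ)‖ := by ring_nf
        _ ≤ ‖z - (-1)‖ + ‖(-17 / 8 : ℂ)‖ := norm_add_le _ _
        _ ≤ 1 / 8 + 17 / 8 := by
            refine add_le_add hz (le_of_eq ?_)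
            rw [neg_div, norm_neg]
            norm_num
        _ ≤ _ := by norm_num
    have h5 := hGD.2 (-1) _ h4 s (by
      rw [← sq_le_sq₀ (norm_nonneg _) (by norm_num), ← normSq_eq_norm_sq, normSq_apply]
      have e1 : (s - (-1)).re = s.re + 1 := by simp
      have e2 : (s - (-1)).im = s.im := by simp
      rw [e1, e2]
      have h9 : s.im * s.im ≤ 4 := by
        have := abs_le.1 h3
        nlinarith
      nlinarith)
    refine h5.trans ?_
    rw [← Real.exp_add, ← Real.exp_add]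
    apply Real.exp_le_exp.2
    have h6 : ν * L ≤ η * L / 8 := by
      rw [hν]
      nlinarith [mul_pos hη0 hLp]
    linarith
  -- the reflected function
  obtain ⟨Hf, hHf⟩ : ∃ Hf : ℂ → ℂ, Hf = fun z => (F (-z) - G (-z)) * cexp (-((L : ℝ) * z)) := ⟨_, rfl⟩
  have hHn : ∀ z : ℂ, ‖Hf z‖ = ‖F (-z) - G (-z)‖ * Real.exp (-(L * z.re)) := by
    intro z
    rw [hHf]
    simp only
    rw [norm_mul, Complex.norm_exp, neg_re, re_ofReal_mul]
  have hHb : ∀ z : ℂ, 0 ≤ z.re → z.re ≤ 2 → |z.im| ≤ 2 → ‖Hf z‖ ≤ Real.exp ((B + 3 * η) * L) := by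
    intro z h1 h2 h3
    rw [hHn]
    have h4 : ‖F (-z)‖ ≤ Real.exp ((z.re + B + η) * L) := by
      rw [hF]
      have h5 := hleft (-z + 1 / 2) (by rw [hre, neg_re]; linarith) (by rw [hre, neg_re]; linarith)
        (by rw [him, neg_im, abs_neg]; exact h3)
      refine h5.trans (Real.exp_le_exp.2 (le_of_eq ?_))
      rw [hre, neg_re]
      ring
    have h5 : ‖G (-z)‖ ≤ Real.exp ((z.re + B + 2 * η) * L) :=
      (hGl (-z) (by rw [neg_re]; linarith) (by rw [neg_re]; linarith) (by rw [neg_im, abs_neg]; exact h3)).trans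
        (Real.exp_le_exp.2 (mul_le_mul_of_nonneg_right (by linarith) hLp.le))
    have h6 : ‖F (-z) - G (-z)‖ ≤ Real.exp ((z.re + B + 2 * η) * L + 1) := by
      calc _ ≤ ‖F (-z)‖ + ‖G (-z)‖ := norm_sub_le _ _
        _ ≤ Real.exp ((z.re + B + 2 * η) * L) + Real.exp ((z.re + B + 2 * η) * L) :=
            add_le_add (h4.trans (Real.exp_le_exp.2 (mul_le_mul_of_nonneg_right (by linarith) hLp.le))) h5
        _ = Real.exp ((z.re + B + 2 * η) * L) * 2 := by ring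
        _ ≤ Real.exp ((z.re + B + 2 * η) * L) * Real.exp 1 :=
            mul_le_mul_of_nonneg_left two_le_exp (Real.exp_pos _).le
        _ = _ := (Real.exp_add _ _).symm
    calc _ ≤ Real.exp ((z.re + B + 2 * η) * L + 1) * Real.exp (-(L * z.re)) :=
          mul_le_mul_of_nonneg_right h6 (Real.exp_pos _).le
      _ = Real.exp ((z.re + B + 2 * η) * L + 1 + -(L * z.re)) := (Real.exp_add _ _).symm
      _ ≤ _ := Real.exp_le_exp.2 (by nlinarith)
  -- the good point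
  obtain ⟨x, hx1, hx2, hx3⟩ := good_pt E M hE (-3 / 4) 0 d hdp
  have hx4 : x ≤ -1 / 2 := by linarith
  obtain ⟨z1, hz1⟩ : ∃ z1 : ℂ, z1 = ((1 / 2 - x : ℝ) : ℂ) := ⟨_, rfl⟩
  have hz1re : z1.re = 1 / 2 - x := by rw [hz1, ofReal_re]
  have hz1n : ‖z1 - 9 / 8‖ ≤ 1 / 8 := by
    have e1 : z1 - 9 / 8 = ((1 / 2 - x - 9 / 8 : ℝ) : ℂ) := by rw [hz1]; push_cast; ring
    rw [e1, norm_real, Real.norm_eq_abs, abs_le]
    constructor <;> linarith
  have hsmall := half_two hd0 hd1 hh0 (dl_sq h) (F := Hf) (M := (B + 3 * η) * L) (m := -K * L)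
    (κ := ((B + 3 * η) * L + K * L) * dl h) (fun z h3 h4 h5 => by
      rw [hHf]
      have h6 : DifferentiableAt ℂ F (-z) := hFd (-z) (by rw [neg_re]; linarith) (by rw [neg_re]; linarith)
        (by rw [neg_im, abs_neg]; exact h5)
      have h7 : DifferentiableAt ℂ (fun z => F (-z) - G (-z)) z :=
        (h6.comp z (by fun_prop)).sub ((hGD.1 (-z)).comp z (by fun_prop))
      exact h7.mul (by fun_prop))
    (by positivity) hHb (fun z h3 h4 => by
      rw [hHn, h3, mul_zero, neg_zero, Real.exp_zero, mul_one]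
      exact hseg (-z) (by rw [neg_re, h3, neg_zero]) (by rw [neg_im, abs_neg]; exact h4))
    (by rw [mul_div_assoc, div_self hd0.ne']; linarith) hz1n
  have ee1 : (B + 3 * η) * L - ((B + 3 * η) * L + K * L) * dl h / 35 = ((1 - w) * (B + 3 * η) - w * K) * L := by
    rw [hw]; ring
  rw [ee1, hHn, hz1re] at hsmall
  have hlow := hf.low (⟨x, 0⟩ : ℂ) (by simp; linarith) (by simp; linarith) (by simp; linarith) hx3
  simp only at hlow
  have ee2 : (-z1 + 1 / 2 : ℂ) = (⟨x, 0⟩ : ℂ) := by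
    rw [hz1]
    apply Complex.ext <;> simp
  have hFz : ‖F (-z1)‖ = ‖f (⟨x, 0⟩ : ℂ)‖ := by
    rw [hF]
    simp only
    rw [ee2]
  have hGz : ‖G (-z1)‖ ≤ Real.exp (2 * η * L) := by
    refine hGl (-z1) (by rw [neg_re, hz1re]; linarith) (by rw [neg_re, hz1re]; linarith) ?_
    rw [neg_im, hz1, ofReal_im, neg_zero, abs_zero]
    norm_num
  have hd3 : ‖F (-z1) - G (-z1)‖ ≤ Real.exp ((1 / 2 - x - γ + 3 * η) * L) := by
    have h1 : ‖F (-z1) - G (-z1)‖ = ‖F (-z1) - G (-z1)‖ * Real.exp (-(L * (1 / 2 - x))) * Real.exp (L * (1 / 2 - x)) := by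
      rw [mul_assoc, ← Real.exp_add, neg_add_cancel, Real.exp_zero, mul_one]
    rw [h1]
    calc _ ≤ Real.exp (((1 - w) * (B + 3 * η) - w * K) * L) * Real.exp (L * (1 / 2 - x)) :=
          mul_le_mul_of_nonneg_right hsmall (Real.exp_pos _).le
      _ = Real.exp (((1 - w) * (B + 3 * η) - w * K) * L + L * (1 / 2 - x)) := (Real.exp_add _ _).symm
      _ ≤ _ := by
          apply Real.exp_le_exp.2
          rw [hγ]
          nlinarith [mul_pos hη0 hLp, mul_pos hw0 (mul_pos hη0 hLp)]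
  have hlow2 : Real.exp ((1 / 2 - x - η) * L) ≤ ‖F (-z1)‖ := by
    rw [hFz]
    refine le_trans (Real.exp_le_exp.2 ?_) hlow
    have : L * (1 / 2 - x - η) ≤ L * (1 / 2 - x - min (min e1 e2) η) :=
      mul_le_mul_of_nonneg_left (by linarith) hLp.le
    linarith
  have htri : ‖F (-z1)‖ ≤ ‖F (-z1) - G (-z1)‖ + ‖G (-z1)‖ := by
    calc ‖F (-z1)‖ = ‖(F (-z1) - G (-z1)) + G (-z1)‖ := by rw [sub_add_cancel]
      _ ≤ _ := norm_add_le _ _
  have hfin1 : Real.exp ((1 / 2 - x - γ + 3 * η) * L) ≤ Real.exp ((1 / 2 - x - η) * L) * Real.exp (-2) := by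
    rw [← Real.exp_add]
    apply Real.exp_le_exp.2
    nlinarith
  have hfin2 : Real.exp (2 * η * L) ≤ Real.exp ((1 / 2 - x - η) * L) * Real.exp (-2) := by
    rw [← Real.exp_add]
    apply Real.exp_le_exp.2
    nlinarith
  have hexp2 : Real.exp (-2) < 1 / 2 := by
    have h1 := two_le_exp
    have h2 : Real.exp (-2) = (Real.exp 1 * Real.exp 1)⁻¹ := by
      rw [← Real.exp_add, ← Real.exp_neg]
      norm_num
    rw [h2, inv_lt_comm₀ (by positivity) (by norm_num)]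
    nlinarith
  have hpos := Real.exp_pos ((1 / 2 - x - η) * L)
  nlinarith

end Pool.Agent.Q97.PA
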