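import Pool.Agent.Q97.PA.D
import Pool.Agent.Q97.PA.G

/-! # High precision needs high complexity, for `GL(m)` -/

set_option autoImplicit false

namespace Pool.Agent.Q97.PA

open Complex Polynomial Metric Set Filter Topology
open Pool.Agent.W169.HF Q240.GS

variable {m : ℕ}

/-- the data near the height `T`, with the behaviour to the left -/
theorem bsT (hm : 1 ≤ m) {Y e δ : ℝ} (hY : 0 ≤ Y) (he : 0 < e) (hδ : 0 < δ) : ∃ C0 : ℝ, 1 ≤ C0 ∧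
    ∀ (N : ℝ) (μ : Fin m → ℂ) (Λ : ℂ → ℂ), Ob N μ Λ → ∀ T : ℝ, C0 ≤ Real.log (Q240.GS.cnd N μ T) →
      BaseE (fun s => Q240.GS.LL μ Λ (s + T * I)) (Real.log (Q240.GS.cnd N μ T)) Y e 18 δ (EX μ T) := by
  obtain ⟨e', he'⟩ : ∃ e' : ℝ, e' = min (e / 2) (1 / 8) := ⟨_, rfl⟩
  have he'0 : 0 < e' := by rw [he']; exact lt_min (by positivity) (by norm_num)
  have he'1 : e' ≤ e / 2 := by rw [he']; exact min_le_left _ _
  have he'2 : e' ≤ 1 / 8 := by rw [he']; exact min_le_right _ _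
  obtain ⟨C0, hC0, H⟩ := base_ofE m hm Y e' δ hY he'0 hδ
  have hm0 : (0 : ℝ) ≤ m := Nat.cast_nonneg m
  refine ⟨C0 + 14 * m + 280 * m / e, by have : 0 ≤ 280 * m / e := by positivity
                                        linarith, ?_⟩
  rintro N μ Λ ⟨α, ε, d, hnz⟩ T hT
  obtain ⟨b1, b2⟩ := el_bd d.one_le d.re_le T
  obtain ⟨L, hL⟩ : ∃ L : ℝ, L = 2 * Q240.GS.el N μ T := ⟨_, rfl⟩
  obtain ⟨W, hW⟩ : ∃ W : ℝ, W = Real.log (Q240.GS.cnd N μ T) := ⟨_, rfl⟩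
  rw [← hL, ← hW] at b1 b2
  rw [← hW] at hT ⊢
  have hq : 0 ≤ 280 * m / e := by positivity
  obtain ⟨hb, -⟩ := H N μ α ε Λ d hnz T (by rw [← hL]; linarith)
  rw [← hL] at hb
  have hLW : L ≤ 2 * W := by linarith
  have hL0 : 0 ≤ L := by linarith
  have hW0 : 0 ≤ W := by linarith
  have hWe : 280 * m ≤ e * W := by
    have h1 : 280 * m / e ≤ W := by linarith
    rw [div_le_iff₀ he] at h1
    linarith
  refine { an := hb.an, grow := ?_, right := ?_, upp := ?_, low := ?_ }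
  · intro s h1 h2 h3
    exact (hb.grow s h1 h2 h3).trans (Real.exp_le_exp.2 (by linarith))
  · intro s h1 h2 h3
    refine (hb.right s h1 h2 h3).trans (Real.exp_le_exp.2 ?_)
    calc e' * L ≤ e / 2 * (2 * W) := mul_le_mul he'1 hLW hL0 (by positivity)
      _ = _ := by ring
  · intro s h1 h2 h3
    refine (hb.upp s h1 h2 h3).trans (Real.exp_le_exp.2 ?_)
    have h4 : L * (1 / 2 - s.re + e') ≤ (W + 10 * m) * (1 / 2 - s.re + e') :=
      mul_le_mul_of_nonneg_right b2 (by linarith)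
    have h5 : W * e' ≤ W * (e / 2) := mul_le_mul_of_nonneg_left he'1 hW0
    have h6 : 10 * (m : ℝ) * (1 / 2 - s.re + e') ≤ 10 * m * 8 := mul_le_mul_of_nonneg_left (by linarith) (by positivity)
    nlinarith
  · intro s h1 h2 h3 h4
    refine le_trans (Real.exp_le_exp.2 ?_) (hb.low s h1 h2 h3 h4)
    have h5 : (W - 14 * m) * (1 / 2 - s.re - e') ≤ L * (1 / 2 - s.re - e') :=
      mul_le_mul_of_nonneg_right (by linarith) (by linarith)
    have h6 : W * e' ≤ W * (e / 2) := mul_le_mul_of_nonneg_left he'1 hW0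
    have h7 : 14 * (m : ℝ) * (1 / 2 - s.re - e') ≤ 14 * m * 8 := mul_le_mul_of_nonneg_left (by linarith) (by positivity)
    nlinarith

lemma lnear {N : ℝ} {μ : Fin m → ℂ} {Λ : ℂ → ℂ} (h : Ob N μ Λ) {y T X : ℝ} (hX : 0 ≤ X) (hy : |T - y| ≤ X) :
    Real.log (Q240.GS.cnd N μ y) ≤ Real.log (Q240.GS.cnd N μ T) + m * Real.log (1 + X) := by
  obtain ⟨α, ε, d, -⟩ := h
  have h1 := Q240.GS.logm_shift d.one_le μ (y := y) (y' := T) (R := X) (hy.trans (le_abs_self X))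
  rwa [abs_of_nonneg hX] at h1

/-- high precision needs high complexity, given a bound for the values -/
theorem gl_lower (hm : 1 ≤ m) {h B K : ℝ} (hh0 : 0 < h) (hB : 0 ≤ B) (hK : (1 - dl h / 35) * B < dl h / 35 * K) :
    ∃ ν X C0 : ℝ, 0 < ν ∧ 1 ≤ X ∧ ∀ (N : ℝ) (μ : Fin m → ℂ) (Λ : ℂ → ℂ), Ob N μ Λ → ∀ T : ℝ,
      C0 ≤ Real.log (Q240.GS.cnd N μ T) →
      (∀ t : ℝ, |t - T| ≤ X → ‖Q240.GS.LL μ Λ (⟨1 / 2, t⟩ : ℂ)‖ ≤ Real.exp (B * Real.log (Q240.GS.cnd N μ T))) →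
      ∀ g : ℂ → ℂ, Dbl (ν * Real.log (Q240.GS.cnd N μ T)) g → ¬ ∀ t : ℝ, |t - T| ≤ h →
        ‖Q240.GS.LL μ Λ (⟨1 / 2, t⟩ : ℂ) - g (t : ℂ)‖ ≤ Real.exp (-K * Real.log (Q240.GS.cnd N μ T)) := by
  obtain ⟨ν, X, e, δ, L0, hν, hX, he, hδ, hL0, H⟩ := lower (A := 18) (5 * m) (by norm_num) hh0 hB hK
  obtain ⟨C0, hC0, HB⟩ := bsT (m := m) hm (Y := X) (by linarith) he hδ
  refine ⟨ν, X, max C0 L0, hν, hX, fun N μ Λ hO T hT hl g hg hcon => ?_⟩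
  refine H (fun s => Q240.GS.LL μ Λ (s + T * I)) _ (EX μ T) ((le_max_right _ _).trans hT) (EX_card μ T)
    (HB N μ Λ hO T ((le_max_left _ _).trans hT)) (fun t ht => ?_) (fun s => g ((T : ℂ) + 1 * s))
    (hg.comp (T : ℂ) (v := 1) norm_one) (fun t ht => ?_)
  · rw [sh_pt]
    exact hl _ (by rw [add_sub_cancel_right]; exact ht)
  · have e1 : (T : ℂ) + 1 * (t : ℂ) = ((t + T : ℝ) : ℂ) := by push_cast; ring
    simp only [e1]
    rw [sh_pt]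
    exact hcon _ (by rw [add_sub_cancel_right]; exact ht)

/-- one window, high precision, unconditionally -/
theorem gl_one (hm : 1 ≤ m) {h : ℝ} (hh0 : 0 < h) : ∃ K ν C0 : ℝ, 0 < K ∧ 0 < ν ∧
    ∀ (N : ℝ) (μ : Fin m → ℂ) (Λ : ℂ → ℂ), Ob N μ Λ → ∀ T : ℝ, C0 ≤ Real.log (Q240.GS.cnd N μ T) →
      ∀ g : ℂ → ℂ, Dbl (ν * Real.log (Q240.GS.cnd N μ T)) g → ¬ ∀ t : ℝ, |t - T| ≤ h →
        ‖Q240.GS.LL μ Λ (⟨1 / 2, t⟩ : ℂ) - g (t : ℂ)‖ ≤ Real.exp (-K * Real.log (Q240.GS.cnd N μ T)) := by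
  have hd0 := dl_pos hh0
  have hd1 := dl_le h
  obtain ⟨K, hK⟩ : ∃ K : ℝ, K = 2 / (dl h / 35) := ⟨_, rfl⟩
  have hK0 : 0 < K := by rw [hK]; positivity
  obtain ⟨ν, X, C0, hν, hX, H⟩ := gl_lower hm (B := 2) (K := K) hh0 (by norm_num) (by
    have : dl h / 35 * K = 2 := by rw [hK]; field_simp
    rw [this]
    nlinarith)
  obtain ⟨B0, hB0, HB⟩ := triv_L (m := m) hm
  have hm0 : (0 : ℝ) ≤ m := Nat.cast_nonneg m
  obtain ⟨k, hk⟩ : ∃ k : ℝ, k = m * Real.log (1 + X) := ⟨_, rfl⟩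
  refine ⟨K, ν, max C0 (B0 + k), hK0, hν, fun N μ Λ hO T hT => H N μ Λ hO T ((le_max_left _ _).trans hT)
    fun t ht => ?_⟩
  refine (HB N μ Λ hO (1 / 2) t le_rfl (by norm_num)).trans (Real.exp_le_exp.2 ?_)
  have h1 := lnear hO (y := t) (T := T) (X := X) (by linarith) (by rw [abs_sub_comm]; exact ht)
  rw [← hk] at h1
  have h2 := (le_max_right _ _).trans hT
  linarith

/-- any positive exponent, in long windows, unconditionally -/
theorem gl_long (hm : 1 ≤ m) {h K : ℝ} (hh0 : 0 < h) (hh1 : h ≤ 1) (hK : 0 < K) : ∃ ν R C0 : ℝ, 0 < ν ∧ 0 < R ∧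
    ∀ (N : ℝ) (μ : Fin m → ℂ) (Λ : ℂ → ℂ), Ob N μ Λ → ∀ T : ℝ, C0 ≤ Real.log (Q240.GS.cnd N μ T) →
      ∃ y : ℝ, |y - T| ≤ R ∧ ∀ g : ℂ → ℂ, Dbl (ν * Real.log (Q240.GS.cnd N μ T)) g → ¬ ∀ t : ℝ, |t - y| ≤ h →
        ‖Q240.GS.LL μ Λ (⟨1 / 2, t⟩ : ℂ) - g (t : ℂ)‖ ≤ Real.exp (-K * Real.log (Q240.GS.cnd N μ T)) := by
  have hd0 := dl_pos hh0
  have hd1 := dl_le h
  obtain ⟨ε, hε⟩ : ∃ ε : ℝ, ε = dl h / 35 * K / 4 := ⟨_, rfl⟩
  have hε0 : 0 < ε := by rw [hε]; positivity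
  obtain ⟨ν1, X1, C1, hν1, hX1, H1⟩ := gl_lower hm (B := 2 * ε) (K := K) hh0 (by positivity) (by
    rw [hε]
    have : 0 < dl h / 35 * K := by positivity
    nlinarith)
  obtain ⟨ν2, X2, C2, hν2, hX2, H2⟩ := gl_iter hm hh0 hh1 hε0
  have hm0 : (0 : ℝ) ≤ m := Nat.cast_nonneg m
  obtain ⟨k, hk⟩ : ∃ k : ℝ, k = m * Real.log (1 + X1) := ⟨_, rfl⟩
  have hk0 : 0 ≤ k := by rw [hk]; exact mul_nonneg hm0 (Real.log_nonneg (by linarith))
  refine ⟨min ν1 (ν2 / 2), X1 + X2, max C1 (|C2| + 2 * k), lt_min hν1 (by positivity), by linarith,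
    fun N μ Λ hO T hT => ?_⟩
  by_contra hcon
  push Not at hcon
  obtain ⟨W, hW⟩ : ∃ W : ℝ, W = Real.log (Q240.GS.cnd N μ T) := ⟨_, rfl⟩
  have hTC := (le_max_right _ _).trans hT
  rw [← hW] at hTC
  have hab := abs_nonneg C2
  have hab2 := le_abs_self C2
  have hW0 : 0 ≤ W := by linarith
  have hval : ∀ t : ℝ, |t - T| ≤ X1 → ‖Q240.GS.LL μ Λ (⟨1 / 2, t⟩ : ℂ)‖ ≤ Real.exp (2 * ε * W) := by
    intro t ht
    have n1 := lnear hO (y := T) (T := t) (X := X1) (by linarith) ht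
    have n2 := lnear hO (y := t) (T := T) (X := X1) (by linarith) (by rw [abs_sub_comm]; exact ht)
    rw [← hk, ← hW] at n1 n2
    have h1 := H2 N μ Λ hO t (by linarith) (fun y hy => by
      obtain ⟨g, hg1, hg2⟩ := hcon y (by
        calc |y - T| = |(y - t) + (t - T)| := by ring_nf
          _ ≤ |y - t| + |t - T| := abs_add_le _ _
          _ ≤ _ := by linarith)
      rw [← hW] at hg1 hg2
      have h3 : ν2 / 2 * W ≤ ν2 * Real.log (Q240.GS.cnd N μ t) := by nlinarith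
      have h4 : min ν1 (ν2 / 2) * W ≤ ν2 / 2 * W := mul_le_mul_of_nonneg_right (min_le_right _ _) hW0
      refine ⟨g, hg1.mono (by linarith), fun u hu => (hg2 u hu).trans (Real.exp_le_exp.2 ?_)⟩
      have h5 : 0 ≤ K * W := by positivity
      have h6 : 0 ≤ ν2 / 2 * W := by positivity
      linarith)
    refine h1.trans (Real.exp_le_exp.2 ?_)
    nlinarith
  obtain ⟨g, hg1, hg2⟩ := hcon T (by rw [sub_self, abs_zero]; linarith)
  refine H1 N μ Λ hO T ((le_max_left _ _).trans hT) (by rw [← hW]; exact hval) g (hg1.mono ?_) hg2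
  rw [← hW]
  exact mul_le_mul_of_nonneg_right (min_le_left _ _) hW0

end Pool.Agent.Q97.PA
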