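import Pool.Agent.Q240.SH.Z5
import Pool.Agent.Q97.PA.D
import Pool.Agent.Q97.PA.G

/-! # The local data of zeta -/

set_option autoImplicit false

namespace Pool.Agent.Q97.PA

open Complex Polynomial Metric Set Filter Topology
open Q240.GS (WB WL BaseE)
open Q240.SH (near1 grow0)
open Pool.Agent.H24R2.JP (XX HH Om)
open Pool.Agent.H986R2.K4 (hh)
open Q240.QS (XX_refl)

/-- the functional equation in a wide strip -/
theorem fe9 : ∃ K T0 : ℝ, 1 ≤ K ∧ 2 ≤ T0 ∧ ∀ s : ℂ, T0 ≤ s.im → |s.re| ≤ 8 →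
    ‖riemannZeta s‖ ≤ Real.exp K * s.im ^ (1 / 2 - s.re) * ‖riemannZeta (1 - (starRingEnd ℂ) s)‖ ∧
    s.im ^ (1 / 2 - s.re) * ‖riemannZeta (1 - (starRingEnd ℂ) s)‖ ≤ Real.exp K * ‖riemannZeta s‖ := by
  obtain ⟨K, hK, hb⟩ := hh
  obtain ⟨T0, hT0, hb⟩ := hb 9 (by norm_num)
  refine ⟨18 * K, T0, by linarith, hT0, fun s hs hre => ?_⟩
  have hre' := abs_le.1 hre
  have ht : 0 < s.im := by linarith
  obtain ⟨t, htd⟩ : ∃ t : ℝ, t = s.im := ⟨_, rfl⟩
  obtain ⟨u, hu⟩ : ∃ u : ℝ, u = s.re - 1 / 2 := ⟨_, rfl⟩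
  have hun : ‖(u : ℂ)‖ ≤ 9 := by
    rw [norm_real, Real.norm_eq_abs, abs_le]; constructor <;> linarith
  have hun' : ‖((-u : ℝ) : ℂ)‖ ≤ 9 := by
    rw [norm_real, Real.norm_eq_abs, abs_le]; constructor <;> linarith
  obtain ⟨a1, a2, a3, a4, a5⟩ := hb t (u : ℂ) (by rw [htd]; exact hs) hun
  obtain ⟨b1, b2, b3, b4, b5⟩ := hb t ((-u : ℝ) : ℂ) (by rw [htd]; exact hs) hun'
  obtain ⟨z, hz⟩ : ∃ z : ℂ, z = I * t + (u : ℂ) := ⟨_, rfl⟩
  obtain ⟨z', hz'⟩ : ∃ z' : ℂ, z' = I * t + ((-u : ℝ) : ℂ) := ⟨_, rfl⟩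
  rw [← hz] at a1 a2 a3 a4 a5
  rw [← hz'] at b1 b2 b3 b4 b5
  have hzs : 1 / 2 + z = s := by
    rw [hz, hu, htd]
    apply Complex.ext <;> simp
  have hzs' : 1 / 2 + z' = 1 - (starRingEnd ℂ) s := by
    rw [hz', hu, htd]
    apply Complex.ext <;> simp <;> ring
  have hzz' : z' = -(starRingEnd ℂ) z := by
    rw [hz', hz]
    apply Complex.ext <;> simp
  have hzi : 0 < z.im := by rw [hz]; simp; rw [htd]; exact ht
  have hzi' : 0 < z'.im := by rw [hz']; simp; rw [htd]; exact ht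
  have e1 := Pool.Agent.H24R2.JP.ZetaTask.part1 z hzi
  have e2 := Pool.Agent.H24R2.JP.ZetaTask.part1 z' hzi'
  rw [hzs] at e1
  rw [hzs'] at e2
  have e3 : XX z' = (starRingEnd ℂ) (XX z) := by rw [hzz', XX_refl]
  have hnorm : ‖HH z‖ * ‖riemannZeta s‖ = ‖HH z'‖ * ‖riemannZeta (1 - (starRingEnd ℂ) s)‖ := by
    rw [← norm_mul, ← norm_mul, ← e1, ← e2, e3, Complex.norm_conj]
  set c : ℝ := ‖HH (I * t)‖ with hc
  have hc0 : 0 ≤ c := norm_nonneg _
  set Z := ‖riemannZeta s‖
  set Z' := ‖riemannZeta (1 - (starRingEnd ℂ) s)‖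
  have hZ : 0 ≤ Z := norm_nonneg _
  have hZ' : 0 ≤ Z' := norm_nonneg _
  have hHpos : 0 < ‖HH z‖ := norm_pos_iff.2 a2
  have hcpos : 0 < c := by
    rcases hc0.eq_or_lt with h | h
    · rw [← h, mul_zero] at a5; linarith
    · exact h
  rw [ofReal_re] at a4 a5 b4 b5
  have hpow : s.im ^ (1 / 2 - s.re) = Real.exp (-(2 * (Om t * u))) := by
    rw [Real.rpow_def_of_pos ht]
    congr 1
    unfold Om
    rw [hu, htd]; ring
  constructor
  · have h1 : Real.exp (Om t * u - K * 9) * c * Z ≤ Real.exp (Om t * -u + K * 9) * c * Z' := by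
      calc _ ≤ ‖HH z‖ * Z := mul_le_mul_of_nonneg_right a4 hZ
        _ = ‖HH z'‖ * Z' := hnorm
        _ ≤ _ := mul_le_mul_of_nonneg_right b5 hZ'
    have h2 : Real.exp (Om t * u - K * 9) * Z ≤ Real.exp (Om t * -u + K * 9) * Z' := by
      have h3 : c * (Real.exp (Om t * u - K * 9) * Z) ≤ c * (Real.exp (Om t * -u + K * 9) * Z') := by
        calc _ = Real.exp (Om t * u - K * 9) * c * Z := by ring
          _ ≤ _ := h1
          _ = _ := by ring
      exact le_of_mul_le_mul_left h3 hcpos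
    rw [hpow]
    have h4 : Real.exp (18 * K) * Real.exp (-(2 * (Om t * u))) * Z' =
        Real.exp (-(Om t * u - K * 9)) * (Real.exp (Om t * -u + K * 9) * Z') := by
      have e1 : Real.exp (18 * K) * Real.exp (-(2 * (Om t * u))) =
          Real.exp (-(Om t * u - K * 9)) * Real.exp (Om t * -u + K * 9) := by
        rw [← Real.exp_add, ← Real.exp_add]
        congr 1; ring
      rw [e1]; ring
    rw [h4]
    calc Z = Real.exp (-(Om t * u - K * 9)) * (Real.exp (Om t * u - K * 9) * Z) := by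
          rw [← mul_assoc, ← Real.exp_add, neg_add_cancel, Real.exp_zero, one_mul]
      _ ≤ _ := mul_le_mul_of_nonneg_left h2 (Real.exp_pos _).le
  · have h1 : Real.exp (Om t * -u - K * 9) * c * Z' ≤ Real.exp (Om t * u + K * 9) * c * Z := by
      calc _ ≤ ‖HH z'‖ * Z' := mul_le_mul_of_nonneg_right b4 hZ'
        _ = ‖HH z‖ * Z := hnorm.symm
        _ ≤ _ := mul_le_mul_of_nonneg_right a5 hZ
    have h2 : Real.exp (Om t * -u - K * 9) * Z' ≤ Real.exp (Om t * u + K * 9) * Z := by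
      have h3 : c * (Real.exp (Om t * -u - K * 9) * Z') ≤ c * (Real.exp (Om t * u + K * 9) * Z) := by
        calc _ = Real.exp (Om t * -u - K * 9) * c * Z' := by ring
          _ ≤ _ := h1
          _ = _ := by ring
      exact le_of_mul_le_mul_left h3 hcpos
    rw [hpow]
    calc Real.exp (-(2 * (Om t * u))) * Z' =
          Real.exp (-(Om t * u) + K * 9) * (Real.exp (Om t * -u - K * 9) * Z') := by
          have e1 : Real.exp (-(2 * (Om t * u))) =
              Real.exp (-(Om t * u) + K * 9) * Real.exp (Om t * -u - K * 9) := by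
            rw [← Real.exp_add]
            congr 1; ring
          rw [e1]; ring
      _ ≤ Real.exp (-(Om t * u) + K * 9) * (Real.exp (Om t * u + K * 9) * Z) :=
          mul_le_mul_of_nonneg_left h2 (Real.exp_pos _).le
      _ = Real.exp (18 * K) * Z := by
          have e1 : Real.exp (18 * K) =
              Real.exp (-(Om t * u) + K * 9) * Real.exp (Om t * u + K * 9) := by
            rw [← Real.exp_add]
            congr 1; ring
          rw [e1]; ring

/-- the size to the left, in a wide strip -/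
theorem zl9 {η : ℝ} (hη : 0 < η) : ∃ T0 : ℝ, 3 ≤ T0 ∧ ∀ s : ℂ, T0 ≤ s.im → -8 ≤ s.re → s.re ≤ 0 →
    Real.exp (Real.log s.im * (1 / 2 - s.re - η)) ≤ ‖riemannZeta s‖ ∧
    ‖riemannZeta s‖ ≤ Real.exp (Real.log s.im * (1 / 2 - s.re + η)) := by
  obtain ⟨K, T1, hK, hT1, hfe⟩ := fe9
  obtain ⟨T2, hT2, hn⟩ := near1 (η / 2) (by positivity)
  refine ⟨max T1 (max T2 (Real.exp (2 * K / η))), hT2.trans ((le_max_left _ _).trans (le_max_right _ _)),
    fun s hs h1 h2 => ?_⟩
  have ha : T1 ≤ s.im := (le_max_left _ _).trans hs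
  have hb : T2 ≤ s.im := (le_max_left _ _).trans ((le_max_right _ _).trans hs)
  have hc : Real.exp (2 * K / η) ≤ s.im := (le_max_right _ _).trans ((le_max_right _ _).trans hs)
  obtain ⟨f1, f2⟩ := hfe s ha (by rw [abs_le]; constructor <;> linarith)
  have hvre : (1 - (starRingEnd ℂ) s).re = 1 - s.re := by simp
  have hvim : (1 - (starRingEnd ℂ) s).im = s.im := by simp
  obtain ⟨-, g2, g3⟩ := hn (1 - (starRingEnd ℂ) s) (by rw [hvre]; linarith) (by rw [hvim]; exact hb)
  rw [hvim] at g2 g3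
  have hs0 : 0 < s.im := by linarith
  rw [Real.rpow_def_of_pos hs0] at f1 f2
  have hK2 : K ≤ η / 2 * Real.log s.im := by
    have h3 := Real.log_le_log (Real.exp_pos _) hc
    rw [Real.log_exp, div_le_iff₀ hη] at h3
    linarith
  obtain ⟨l, hl⟩ : ∃ l : ℝ, l = Real.log s.im := ⟨_, rfl⟩
  rw [← hl] at f1 f2 g2 g3 hK2 ⊢
  constructor
  · have e1 : Real.exp (l * (1 / 2 - s.re)) * Real.exp (-(η / 2 * l)) ≤ Real.exp K * ‖riemannZeta s‖ :=
      (mul_le_mul_of_nonneg_left g2 (Real.exp_pos _).le).trans f2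
    have e3 : Real.exp K * Real.exp (l * (1 / 2 - s.re - η)) ≤ Real.exp K * ‖riemannZeta s‖ := by
      refine le_trans ?_ e1
      rw [← Real.exp_add, ← Real.exp_add]
      apply Real.exp_le_exp.2
      linarith
    exact le_of_mul_le_mul_left e3 (Real.exp_pos K)
  · refine f1.trans ?_
    calc _ ≤ Real.exp K * Real.exp (l * (1 / 2 - s.re)) * Real.exp (η / 2 * l) :=
          mul_le_mul_of_nonneg_left g3 (by positivity)
      _ = Real.exp (K + l * (1 / 2 - s.re) + η / 2 * l) := by rw [Real.exp_add, Real.exp_add]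
      _ ≤ _ := Real.exp_le_exp.2 (by linarith)

/-- the local data of zeta -/
theorem bsZ {Y e δ : ℝ} (hY : 0 ≤ Y) (he : 0 < e) : ∃ T0 : ℝ, 3 ≤ T0 ∧ ∀ T : ℝ, T0 ≤ T →
    BaseE (fun s => riemannZeta (s + T * I)) (Real.log T) Y e 18 δ ∅ := by
  obtain ⟨e', he'⟩ : ∃ e' : ℝ, e' = min (e / 2) (1 / 8) := ⟨_, rfl⟩
  have he'0 : 0 < e' := by rw [he']; exact lt_min (by positivity) (by norm_num)
  have he'1 : e' ≤ e / 2 := by rw [he']; exact min_le_left _ _
  have he'2 : e' ≤ 1 / 8 := by rw [he']; exact min_le_right _ _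
  obtain ⟨T1, hT1, h1⟩ := zl9 he'0
  obtain ⟨T2, hT2, h2⟩ := near1 e' he'0
  obtain ⟨T3, hT3, h3⟩ := grow0
  refine ⟨max (T1 + T2 + T3 + 2 * Y) (Real.exp (20 / e)), (by linarith : (3 : ℝ) ≤ T1 + T2 + T3 + 2 * Y).trans
    (le_max_left _ _), fun T hT => ?_⟩
  have hTa := (le_max_left _ _).trans hT
  have hTb := (le_max_right _ _).trans hT
  have hT0 : 0 < T := by linarith
  obtain ⟨L, hL⟩ : ∃ L : ℝ, L = Real.log T := ⟨_, rfl⟩
  have hLe : 20 ≤ e * L := by
    have h4 := Real.log_le_log (Real.exp_pos _) hTb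
    rw [Real.log_exp, ← hL, div_le_iff₀ he] at h4
    linarith
  have hL0 : 0 < L := by
    by_contra hneg
    push Not at hneg
    nlinarith
  have him : ∀ s : ℂ, (s + T * I : ℂ).im = s.im + T := fun s => by simp
  have hre : ∀ s : ℂ, (s + T * I : ℂ).re = s.re := fun s => by simp
  have hbig : ∀ s : ℂ, |s.im| ≤ Y → T1 ≤ s.im + T ∧ T2 ≤ s.im + T ∧ T3 ≤ s.im + T ∧ 0 < s.im + T ∧
      Real.log (s.im + T) ≤ L + 1 ∧ L ≤ Real.log (s.im + T) + 1 ∧ 0 ≤ Real.log (s.im + T) := by
    intro s hs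
    rw [abs_le] at hs
    have h4 : 0 < s.im + T := by linarith
    have hl2 : Real.log 2 ≤ 1 := by
      have := Real.log_two_lt_d9
      linarith
    refine ⟨by linarith, by linarith, by linarith, h4, ?_, ?_, Real.log_nonneg (by linarith)⟩
    · have h5 : Real.log (s.im + T) ≤ Real.log (2 * T) := Real.log_le_log h4 (by linarith)
      rw [Real.log_mul two_ne_zero hT0.ne', ← hL] at h5
      linarith
    · have h5 : Real.log T ≤ Real.log (2 * (s.im + T)) := Real.log_le_log hT0 (by linarith)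
      rw [Real.log_mul two_ne_zero h4.ne', ← hL] at h5
      linarith
  rw [← hL]
  refine { an := ?_, grow := ?_, right := ?_, upp := ?_, low := ?_ }
  · intro s hs _ _
    obtain ⟨-, -, -, k4, -⟩ := hbig s hs
    have hne : s + T * I ≠ 1 := by
      intro h
      have := congrArg Complex.im h
      rw [him, one_im] at this
      linarith
    have hopen : IsOpen {z : ℂ | z ≠ 1} := isOpen_ne
    have hd : DifferentiableOn ℂ riemannZeta {z : ℂ | z ≠ 1} := fun z hz =>
      (differentiableAt_riemannZeta hz).differentiableWithinAt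
    have h4 : AnalyticAt ℂ riemannZeta (s + T * I) := hd.analyticAt (hopen.mem_nhds hne)
    exact AnalyticAt.comp (g := riemannZeta) (f := fun z : ℂ => z + T * I) h4 (by fun_prop)
  · intro s hs g1 g2
    obtain ⟨k1, k2, k3, k4, k5, k6, k7⟩ := hbig s hs
    rcases le_total s.re 0 with g3 | g3
    · have h4 := (h1 (s + T * I) (by rw [him]; exact k1) (by rw [hre]; linarith) (by rw [hre]; exact g3)).2
      rw [him, hre] at h4
      refine h4.trans (Real.exp_le_exp.2 ?_)
      have h5 : Real.log (s.im + T) * (1 / 2 - s.re + e') ≤ (L + 1) * 8 :=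
        mul_le_mul k5 (by linarith) (by linarith) (by linarith)
      have : 1 ≤ L ∨ L < 1 := le_or_gt 1 L
      rcases this with h6 | h6
      · linarith
      · exfalso
        have : T ≤ Real.exp 1 := by
          have h7 : Real.exp L ≤ Real.exp 1 := Real.exp_le_exp.2 h6.le
          rwa [hL, Real.exp_log hT0] at h7
        have := Real.exp_one_lt_d9
        linarith
    · have h4 := h3 (s + T * I) (by rw [him]; exact k3) (by rw [hre]; linarith) (by rw [hre]; exact g2)
      rw [him] at h4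
      refine h4.trans (Real.exp_le_exp.2 ?_)
      have : 1 ≤ L ∨ L < 1 := le_or_gt 1 L
      rcases this with h6 | h6
      · linarith
      · exfalso
        have : T ≤ Real.exp 1 := by
          have h7 : Real.exp L ≤ Real.exp 1 := Real.exp_le_exp.2 h6.le
          rwa [hL, Real.exp_log hT0] at h7
        have := Real.exp_one_lt_d9
        linarith
  · intro s hs g1 g2
    obtain ⟨k1, k2, k3, k4, k5, k6, k7⟩ := hbig s hs
    have h4 := (h2 (s + T * I) (by rw [hre]; linarith) (by rw [him]; exact k2)).2.2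
    rw [him] at h4
    refine h4.trans (Real.exp_le_exp.2 ?_)
    calc e' * Real.log (s.im + T) ≤ e / 2 * (L + 1) := mul_le_mul he'1 k5 k7 (by positivity)
      _ ≤ _ := by
          have : 1 ≤ L := by
            by_contra h6
            push Not at h6
            have : T ≤ Real.exp 1 := by
              have h7 : Real.exp L ≤ Real.exp 1 := Real.exp_le_exp.2 h6.le
              rwa [hL, Real.exp_log hT0] at h7
            have := Real.exp_one_lt_d9
            linarith
          nlinarith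
  · intro s hs g1 g2
    obtain ⟨k1, k2, k3, k4, k5, k6, k7⟩ := hbig s hs
    have h4 := (h1 (s + T * I) (by rw [him]; exact k1) (by rw [hre]; linarith) (by rw [hre]; linarith)).2
    rw [him, hre] at h4
    refine h4.trans (Real.exp_le_exp.2 ?_)
    have h5 : Real.log (s.im + T) * (1 / 2 - s.re + e') ≤ (L + 1) * (1 / 2 - s.re + e') :=
      mul_le_mul_of_nonneg_right k5 (by linarith)
    have h6 : L * e' ≤ L * (e / 2) := mul_le_mul_of_nonneg_left he'1 hL0.le
    nlinarith
  · intro s hs g1 g2 _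
    obtain ⟨k1, k2, k3, k4, k5, k6, k7⟩ := hbig s hs
    have h4 := (h1 (s + T * I) (by rw [him]; exact k1) (by rw [hre]; linarith) (by rw [hre]; linarith)).1
    rw [him, hre] at h4
    refine le_trans (Real.exp_le_exp.2 ?_) h4
    have h5 : (L - 1) * (1 / 2 - s.re - e') ≤ Real.log (s.im + T) * (1 / 2 - s.re - e') :=
      mul_le_mul_of_nonneg_right (by linarith) (by linarith)
    have h6 : L * e' ≤ L * (e / 2) := mul_le_mul_of_nonneg_left he'1 hL0.le
    nlinarith

end Pool.Agent.Q97.PA
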