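import Pool.Agent.Q97.PA.Z

/-! # Local approximation by functions of slow growth, for zeta -/

set_option autoImplicit false

namespace Pool.Agent.Q97.PA

open Complex Polynomial Metric Set Filter Topology
open Q240.GS (WB WL BaseE)

lemma zeta_an {s : ℂ} (hs : s ≠ 1) : AnalyticAt ℂ riemannZeta s := by
  have hopen : IsOpen {z : ℂ | z ≠ 1} := isOpen_ne
  have hd : DifferentiableOn ℂ riemannZeta {z : ℂ | z ≠ 1} := fun z hz =>
    (differentiableAt_riemannZeta hz).differentiableWithinAt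
  exact hd.analyticAt (hopen.mem_nhds hs)

lemma zeta_an' (t : ℝ) : AnalyticAt ℂ riemannZeta (⟨1 / 2, t⟩ : ℂ) := by
  apply zeta_an
  intro h
  have := congrArg Complex.re h
  rw [one_re] at this
  norm_num at this

/-- from one derivative to a polynomial -/
theorem zder_poly {h : ℝ} (hh : 0 < h) (y : ℝ) {n : ℕ} {M : ℝ}
    (hM : ∀ t : ℝ, |t - y| ≤ h → ‖iteratedDeriv n riemannZeta (⟨1 / 2, t⟩ : ℂ)‖ ≤ n.factorial * h⁻¹ ^ n * Real.exp M) :
    ∃ p : ℂ[X], p.natDegree ≤ n ∧ ∀ t : ℝ, |t - y| ≤ h →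
      ‖riemannZeta (⟨1 / 2, t⟩ : ℂ) - p.eval (t : ℂ)‖ ≤ Real.exp (2 * n + M) := by
  obtain ⟨p, hp1, hp2⟩ := taylor_seg (f := riemannZeta) (a := y - h) (b := y + h) (by linarith)
    (fun t _ _ => zeta_an' t) n
    (M := h⁻¹ ^ n * Real.exp M) (fun t h1 h2 => by
      rw [← mul_assoc]
      refine hM t ?_
      rw [abs_le]
      constructor <;> linarith)
  refine ⟨p, hp1, fun t ht => ?_⟩
  rw [abs_le] at ht
  refine (hp2 t (by linarith) (by linarith)).trans ?_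
  have e1 : ((n : ℝ) + 1) * (y + h - (y - h)) ^ n * (h⁻¹ ^ n * Real.exp M) = ((n : ℝ) + 1) * 2 ^ n * Real.exp M := by
    have e2 : (y + h - (y - h)) = 2 * h := by ring
    have e3 : h ^ n * h⁻¹ ^ n = 1 := by rw [← mul_pow, mul_inv_cancel₀ hh.ne', one_pow]
    rw [e2, mul_pow]
    calc _ = ((n : ℝ) + 1) * 2 ^ n * Real.exp M * (h ^ n * h⁻¹ ^ n) := by ring
      _ = _ := by rw [e3, mul_one]
  rw [e1, Real.exp_add]
  exact mul_le_mul_of_nonneg_right (n_exp n) (Real.exp_pos _).le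

/-- local approximation near `T` decides the size at `T` -/
theorem z_iter {h ε : ℝ} (hh0 : 0 < h) (hh1 : h ≤ 1) (hε : 0 < ε) : ∃ ν Y T0 : ℝ, 0 < ν ∧ 1 ≤ Y ∧ 3 ≤ T0 ∧
    ∀ T : ℝ, T0 ≤ T →
      (∀ y : ℝ, |y - T| ≤ Y → ∃ g : ℂ → ℂ, Dbl (ν * Real.log T) g ∧ ∀ t : ℝ, |t - y| ≤ h →
        ‖riemannZeta (⟨1 / 2, t⟩ : ℂ) - g (t : ℂ)‖ ≤ Real.exp (ν * Real.log T)) →
      ‖riemannZeta (⟨1 / 2, T⟩ : ℂ)‖ ≤ Real.exp (ε * Real.log T) := by
  obtain ⟨ν, e, X, L0, hν, he, hX, hL0, H⟩ := iter (A := 18) (by norm_num) hh0 hh1 hε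
  obtain ⟨T0, hT0, HW⟩ := bsZ (Y := X) (e := e) (δ := 1) (by linarith) he
  refine ⟨ν, X, max T0 (Real.exp L0), hν, hX, hT0.trans (le_max_left _ _), fun T hT hp => ?_⟩
  have hTL : L0 ≤ Real.log T := by
    have h1 := Real.log_le_log (Real.exp_pos _) ((le_max_right _ _).trans hT)
    rwa [Real.log_exp] at h1
  have h1 := H (fun s => riemannZeta (s + T * I)) _ hTL
    (HW T ((le_max_left _ _).trans hT)).toWB (fun y hy => by
      obtain ⟨p, hp1, hp2⟩ := hp (y + T) (by rw [add_sub_cancel_right]; exact hy)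
      refine ⟨fun s => p ((T : ℂ) + 1 * s), hp1.comp (T : ℂ) (v := 1) norm_one, fun t ht => ?_⟩
      have e1 : (T : ℂ) + 1 * (t : ℂ) = ((t + T : ℝ) : ℂ) := by push_cast; ring
      simp only [e1]
      rw [sh_pt]
      exact hp2 (t + T) (by rw [add_sub_add_right_eq_sub]; exact ht))
  simp only [sh_pt, zero_add] at h1
  exact h1

/-- a bound for the values gives one for the derivatives -/
theorem z_cauchy {ε : ℝ} (hε : 0 < ε) : ∃ ν Y T0 : ℝ, 0 < ν ∧ 1 ≤ Y ∧ 3 ≤ T0 ∧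
    ∀ T B : ℝ, 0 ≤ B → T0 ≤ T →
      (∀ t : ℝ, |t - T| ≤ Y → ‖riemannZeta (⟨1 / 2, t⟩ : ℂ)‖ ≤ Real.exp (B * Real.log T)) →
      ∀ n : ℕ, n ≤ ν * Real.log T → ∀ t : ℝ, |t - T| ≤ 1 →
        ‖iteratedDeriv n riemannZeta (⟨1 / 2, t⟩ : ℂ)‖ ≤ n.factorial * Real.exp ((B + ε) * Real.log T) := by
  obtain ⟨X, e, r, hX, he, hr0, hr1, H⟩ := disc (A := 18) (η := ε / 2) (by norm_num) (by positivity)
  obtain ⟨T0, hT0, HW⟩ := bsZ (Y := X + 2) (e := e) (δ := 1) (by linarith) he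
  have hlr : 0 < Real.log r⁻¹ := Real.log_pos ((one_lt_inv₀ hr0).2 (by linarith))
  refine ⟨ε / (2 * Real.log r⁻¹), X + 1, T0, by positivity, by linarith, hT0, fun T B hB hT hl n hn t ht => ?_⟩
  have hW1 : 1 ≤ Real.log T := by
    rw [Real.le_log_iff_exp_le (by linarith)]
    have := Real.exp_one_lt_d9
    linarith
  obtain ⟨W, hW⟩ : ∃ W : ℝ, W = Real.log T := ⟨_, rfl⟩
  have hwb := (HW T hT).toWB
  rw [← hW] at hW1 hl hn hwb ⊢
  have h1 := H (fun s => riemannZeta (s + T * I)) W (X + 2) (t - T) B hW1 hwb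
    (by linarith) hB (fun u hu => by
      rw [sh_pt]
      refine hl _ ?_
      rw [add_sub_cancel_right]
      calc |u| = |(u - (t - T)) + (t - T)| := by ring_nf
        _ ≤ |u - (t - T)| + |t - T| := abs_add_le _ _
        _ ≤ _ := by linarith)
  rw [abs_le] at ht
  have h2 := cauchy (f := riemannZeta) (c := (⟨1 / 2, t⟩ : ℂ)) hr0 (fun s hs => by
      apply zeta_an
      intro h
      have h3 := (abs_im_le_norm (s - (⟨1 / 2, t⟩ : ℂ))).trans hs
      rw [h, sub_im, one_im, abs_le] at h3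
      simp only at h3
      linarith [h3.1])
    (M := Real.exp ((B + ε / 2) * W)) (fun s hs => by
      have h3 := h1 (s - T * I) (by
        have e1 : s - T * I - (⟨1 / 2, t - T⟩ : ℂ) = s - (⟨1 / 2, t⟩ : ℂ) := by
          apply Complex.ext
          · simp
          · simp
        rw [e1]
        exact hs)
      simp only [sub_add_cancel] at h3
      exact h3) n
  refine h2.trans ?_
  rw [mul_div_assoc]
  apply mul_le_mul_of_nonneg_left _ (by positivity)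
  have e3 : Real.exp ((B + ε / 2) * W) / r ^ n = Real.exp ((B + ε / 2) * W + n * Real.log r⁻¹) := by
    rw [Real.exp_add, Real.exp_nat_mul, Real.exp_log (inv_pos.2 hr0), inv_pow, div_eq_mul_inv]
  rw [e3]
  apply Real.exp_le_exp.2
  have h4 : n * Real.log r⁻¹ ≤ ε / 2 * W := by
    generalize Real.log r⁻¹ = l at hn hlr ⊢
    calc n * l ≤ ε / (2 * l) * W * l := mul_le_mul_of_nonneg_right hn hlr.le
      _ = _ := by field_simp
  linarith

/-- derivatives of high order, unconditionally -/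
theorem z_high {K : ℝ} (hK : 0 < K) : ∃ T0 : ℝ, 10 ≤ T0 ∧ ∀ T : ℝ, T0 ≤ T →
      (∀ n : ℕ, (K + 18) * Real.log T ≤ n → ∀ t : ℝ, |t - T| ≤ 1 →
        ‖iteratedDeriv n riemannZeta (⟨1 / 2, t⟩ : ℂ)‖ ≤ n.factorial * Real.exp (-K * Real.log T)) ∧
      ∃ p : ℂ[X], p.natDegree ≤ 4 * (K + 20) * Real.log T ∧ ∀ t : ℝ, |t - T| ≤ 1 →
        ‖riemannZeta (⟨1 / 2, t⟩ : ℂ) - p.eval (t : ℂ)‖ ≤ Real.exp (-K * Real.log T) := by
  obtain ⟨T0, hT0, HW⟩ := bsZ (Y := 5) (e := 1) (δ := 1) (by norm_num) one_pos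
  refine ⟨max T0 10, le_max_right _ _, fun T hT => ?_⟩
  have hT10 := (le_max_right _ _).trans hT
  have hW1 : 1 ≤ Real.log T := by
    rw [Real.le_log_iff_exp_le (by linarith)]
    have := Real.exp_one_lt_d9
    linarith
  obtain ⟨W, hW⟩ : ∃ W : ℝ, W = Real.log T := ⟨_, rfl⟩
  have hwb := (HW T ((le_max_left _ _).trans hT)).toWB
  rw [← hW] at hW1 hwb ⊢
  have hc : ∀ n : ℕ, ∀ t : ℝ, |t - T| ≤ 1 → ‖iteratedDeriv n riemannZeta (⟨1 / 2, t⟩ : ℂ)‖ ≤
      n.factorial * (Real.exp (18 * W) / 4 ^ n) := by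
    intro n t ht
    have h2 := cauchy (f := riemannZeta) (c := (⟨1 / 2, t⟩ : ℂ)) (r := 4) (by norm_num) (fun s hs => by
        apply zeta_an
        intro h
        have h3 := (abs_im_le_norm (s - (⟨1 / 2, t⟩ : ℂ))).trans hs
        rw [abs_le] at ht
        rw [h, sub_im, one_im, abs_le] at h3
        simp only at h3
        linarith [h3.1])
      (M := Real.exp (18 * W)) (fun s hs => by
        have hre : |s.re - 1 / 2| ≤ 4 := by
          have h3 := (abs_re_le_norm (s - (⟨1 / 2, t⟩ : ℂ))).trans hs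
          have e : (s - (⟨1 / 2, t⟩ : ℂ)).re = s.re - 1 / 2 := by simp
          rwa [e] at h3
        have him : |s.im - t| ≤ 4 := by
          have h3 := (abs_im_le_norm (s - (⟨1 / 2, t⟩ : ℂ))).trans hs
          have e : (s - (⟨1 / 2, t⟩ : ℂ)).im = s.im - t := by simp
          rwa [e] at h3
        rw [abs_le] at hre
        have h3 := hwb.grow (s - T * I) (by
          have e1 : (s - T * I).im = (s.im - t) + (t - T) := by simp
          rw [e1]
          exact (abs_add_le _ _).trans (by linarith)) (by simp; linarith) (by simp; linarith)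
        simp only [sub_add_cancel] at h3
        exact h3) n
    rwa [mul_div_assoc] at h2
  refine ⟨fun n hn t ht => (hc n t ht).trans (mul_le_mul_of_nonneg_left ?_ (by positivity)), ?_⟩
  · rw [div_le_iff₀ (by positivity)]
    have h1 : Real.exp n ≤ (4 : ℝ) ^ n := by
      have : Real.exp n = Real.exp 1 ^ n := by rw [← Real.exp_nat_mul, mul_one]
      rw [this]
      refine pow_le_pow_left₀ (Real.exp_pos _).le ?_ n
      have := Real.exp_one_lt_d9
      linarith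
    calc Real.exp (18 * W) ≤ Real.exp (-K * W + n) := Real.exp_le_exp.2 (by linarith)
      _ = Real.exp (-K * W) * Real.exp n := Real.exp_add _ _
      _ ≤ _ := mul_le_mul_of_nonneg_left h1 (Real.exp_pos _).le
  · obtain ⟨n, hn⟩ : ∃ n : ℕ, n = ⌈4 * (K + 19) * W⌉₊ := ⟨_, rfl⟩
    have hn1 : 4 * (K + 19) * W ≤ n := by rw [hn]; exact Nat.le_ceil _
    have hn2 : (n : ℝ) ≤ 4 * (K + 20) * W := by
      have : (n : ℝ) < 4 * (K + 19) * W + 1 := by rw [hn]; exact Nat.ceil_lt_add_one (by positivity)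
      nlinarith
    obtain ⟨p, hp1, hp2⟩ := taylor_seg (f := riemannZeta) (a := T - 1) (b := T + 1) (by linarith)
      (fun t _ _ => zeta_an' t) n (M := Real.exp (18 * W) / 4 ^ n) (fun t h1 h2 => hc n t (by
        rw [abs_le]
        constructor <;> linarith))
    refine ⟨p, le_trans (by exact_mod_cast hp1) hn2, fun t ht => ?_⟩
    rw [abs_le] at ht
    refine (hp2 t (by linarith) (by linarith)).trans ?_
    have e1 : (T + 1 - (T - 1)) = 2 := by ring
    rw [e1]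
    have h4 : (0 : ℝ) < 4 ^ n := by positivity
    calc ((n : ℝ) + 1) * 2 ^ n * (Real.exp (18 * W) / 4 ^ n) ≤
          2 * (4 ^ n * Real.exp (-(n / 4))) * (Real.exp (18 * W) / 4 ^ n) :=
          mul_le_mul_of_nonneg_right (pow_quarter n) (by positivity)
      _ = 2 * (Real.exp (18 * W) * Real.exp (-(n / 4))) := by field_simp
      _ = 2 * Real.exp (18 * W - n / 4) := by rw [← Real.exp_add]; ring_nf
      _ ≤ Real.exp 1 * Real.exp (18 * W - n / 4) := mul_le_mul_of_nonneg_right two_le_exp (Real.exp_pos _).le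
      _ = Real.exp (1 + (18 * W - n / 4)) := (Real.exp_add _ _).symm
      _ ≤ _ := Real.exp_le_exp.2 (by linarith)

/-- high precision needs high complexity, given a bound for the values -/
theorem z_lower {h B K : ℝ} (hh0 : 0 < h) (hB : 0 ≤ B) (hK : (1 - dl h / 35) * B < dl h / 35 * K) :
    ∃ ν X T0 : ℝ, 0 < ν ∧ 1 ≤ X ∧ 3 ≤ T0 ∧ ∀ T : ℝ, T0 ≤ T →
      (∀ t : ℝ, |t - T| ≤ X → ‖riemannZeta (⟨1 / 2, t⟩ : ℂ)‖ ≤ Real.exp (B * Real.log T)) →
      ∀ g : ℂ → ℂ, Dbl (ν * Real.log T) g → ¬ ∀ t : ℝ, |t - T| ≤ h →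
        ‖riemannZeta (⟨1 / 2, t⟩ : ℂ) - g (t : ℂ)‖ ≤ Real.exp (-K * Real.log T) := by
  obtain ⟨ν, X, e, δ, L0, hν, hX, he, hδ, hL0, H⟩ := lower (A := 18) 0 (by norm_num) hh0 hB hK
  obtain ⟨T0, hT0, HB⟩ := bsZ (Y := X) (e := e) (δ := δ) (by linarith) he
  refine ⟨ν, X, max T0 (Real.exp L0), hν, hX, hT0.trans (le_max_left _ _), fun T hT hl g hg hcon => ?_⟩
  have hTL : L0 ≤ Real.log T := by
    have h1 := Real.log_le_log (Real.exp_pos _) ((le_max_right _ _).trans hT)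
    rwa [Real.log_exp] at h1
  refine H (fun s => riemannZeta (s + T * I)) _ ∅ hTL (by simp)
    (HB T ((le_max_left _ _).trans hT)) (fun t ht => ?_) (fun s => g ((T : ℂ) + 1 * s))
    (hg.comp (T : ℂ) (v := 1) norm_one) (fun t ht => ?_)
  · rw [sh_pt]
    exact hl _ (by rw [add_sub_cancel_right]; exact ht)
  · have e1 : (T : ℂ) + 1 * (t : ℂ) = ((t + T : ℝ) : ℂ) := by push_cast; ring
    simp only [e1]
    rw [sh_pt]
    exact hcon _ (by rw [add_sub_cancel_right]; exact ht)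

lemma zlog_near {X : ℝ} (hX : 0 ≤ X) {T y : ℝ} (hT : 2 * X + 3 ≤ T) (hy : |y - T| ≤ X) :
    Real.log y ≤ Real.log T + 1 ∧ Real.log T ≤ Real.log y + 1 ∧ 1 ≤ Real.log T := by
  rw [abs_le] at hy
  have h4 : 0 < y := by linarith
  have hT0 : 0 < T := by linarith
  have hl2 : Real.log 2 ≤ 1 := by
    have := Real.log_two_lt_d9
    linarith
  refine ⟨?_, ?_, ?_⟩
  · have h5 : Real.log y ≤ Real.log (2 * T) := Real.log_le_log h4 (by linarith)
    rw [Real.log_mul two_ne_zero hT0.ne'] at h5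
    linarith
  · have h5 : Real.log T ≤ Real.log (2 * y) := Real.log_le_log hT0 (by linarith)
    rw [Real.log_mul two_ne_zero h4.ne'] at h5
    linarith
  · rw [Real.le_log_iff_exp_le hT0]
    have := Real.exp_one_lt_d9
    linarith

/-- the trivial bound -/
lemma z_triv : ∃ T0 : ℝ, 3 ≤ T0 ∧ ∀ t : ℝ, T0 ≤ t → ‖riemannZeta (⟨1 / 2, t⟩ : ℂ)‖ ≤ Real.exp (Real.log t * 8) := by
  obtain ⟨T0, hT0, H⟩ := Q240.SH.grow0
  exact ⟨T0, hT0, fun t ht => H _ ht (by norm_num) (by norm_num)⟩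

/-- one window, high precision, unconditionally -/
theorem z_one {h : ℝ} (hh0 : 0 < h) : ∃ K ν T0 : ℝ, 0 < K ∧ 0 < ν ∧ 3 ≤ T0 ∧ ∀ T : ℝ, T0 ≤ T →
      ∀ g : ℂ → ℂ, Dbl (ν * Real.log T) g → ¬ ∀ t : ℝ, |t - T| ≤ h →
        ‖riemannZeta (⟨1 / 2, t⟩ : ℂ) - g (t : ℂ)‖ ≤ Real.exp (-K * Real.log T) := by
  have hd0 := dl_pos hh0
  have hd1 := dl_le h
  obtain ⟨K, hK⟩ : ∃ K : ℝ, K = 16 / (dl h / 35) := ⟨_, rfl⟩
  have hK0 : 0 < K := by rw [hK]; positivity
  obtain ⟨ν, X, T0, hν, hX, hT0, H⟩ := z_lower (B := 16) (K := K) hh0 (by norm_num) (by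
    have : dl h / 35 * K = 16 := by rw [hK]; field_simp
    rw [this]
    nlinarith)
  obtain ⟨T1, hT1, HB⟩ := z_triv
  refine ⟨K, ν, max T0 (T1 + 2 * X + 3), hK0, hν, hT0.trans (le_max_left _ _), fun T hT =>
    H T ((le_max_left _ _).trans hT) fun t ht => ?_⟩
  have h2 := (le_max_right _ _).trans hT
  obtain ⟨h3, -, h5⟩ := zlog_near (X := X) (by linarith) (T := T) (y := t) (by linarith) ht
  have ht' := abs_le.1 ht
  refine (HB t (by linarith)).trans (Real.exp_le_exp.2 ?_)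
  linarith

/-- any positive exponent, in long windows, unconditionally -/
theorem z_long {h K : ℝ} (hh0 : 0 < h) (hh1 : h ≤ 1) (hK : 0 < K) : ∃ ν R T0 : ℝ, 0 < ν ∧ 0 < R ∧ 3 ≤ T0 ∧
    ∀ T : ℝ, T0 ≤ T → ∃ y : ℝ, |y - T| ≤ R ∧ ∀ g : ℂ → ℂ, Dbl (ν * Real.log T) g → ¬ ∀ t : ℝ, |t - y| ≤ h →
        ‖riemannZeta (⟨1 / 2, t⟩ : ℂ) - g (t : ℂ)‖ ≤ Real.exp (-K * Real.log T) := by
  have hd0 := dl_pos hh0
  have hd1 := dl_le h
  obtain ⟨ε, hε⟩ : ∃ ε : ℝ, ε = dl h / 35 * K / 4 := ⟨_, rfl⟩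
  have hε0 : 0 < ε := by rw [hε]; positivity
  obtain ⟨ν1, X1, C1, hν1, hX1, hC1, H1⟩ := z_lower (B := 2 * ε) (K := K) hh0 (by positivity) (by
    rw [hε]
    have : 0 < dl h / 35 * K := by positivity
    nlinarith)
  obtain ⟨ν2, X2, C2, hν2, hX2, hC2, H2⟩ := z_iter hh0 hh1 hε0
  refine ⟨min ν1 (ν2 / 2), X1 + X2, max C1 (C2 + 2 * X1 + 10), lt_min hν1 (by positivity), by linarith,
    hC1.trans (le_max_left _ _), fun T hT => ?_⟩
  by_contra hcon
  push Not at hcon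
  obtain ⟨W, hW⟩ : ∃ W : ℝ, W = Real.log T := ⟨_, rfl⟩
  have hTC := (le_max_right _ _).trans hT
  have hval : ∀ t : ℝ, |t - T| ≤ X1 → ‖riemannZeta (⟨1 / 2, t⟩ : ℂ)‖ ≤ Real.exp (2 * ε * W) := by
    intro t ht
    have ht' := abs_le.1 ht
    obtain ⟨n1, n2, n3⟩ := zlog_near (X := X1) (by linarith) (T := T) (y := t) (by linarith) ht
    have n4 : 2 ≤ Real.log T := by
      rw [Real.le_log_iff_exp_le (by linarith)]
      have h1 := Real.exp_one_lt_d9
      have h2 : Real.exp 2 = Real.exp 1 * Real.exp 1 := by rw [← Real.exp_add]; norm_num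
      rw [h2]
      nlinarith [Real.exp_pos 1]
    rw [← hW] at n1 n2 n3 n4
    have h1 := H2 t (by linarith) (fun y hy => by
      obtain ⟨g, hg1, hg2⟩ := hcon y (by
        calc |y - T| = |(y - t) + (t - T)| := by ring_nf
          _ ≤ |y - t| + |t - T| := abs_add_le _ _
          _ ≤ _ := by linarith)
      rw [← hW] at hg1 hg2
      have h3 : ν2 / 2 * W ≤ ν2 * Real.log t := by nlinarith
      have h4 : min ν1 (ν2 / 2) * W ≤ ν2 / 2 * W := mul_le_mul_of_nonneg_right (min_le_right _ _) (by linarith)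
      refine ⟨g, hg1.mono (by linarith), fun u hu => (hg2 u hu).trans (Real.exp_le_exp.2 ?_)⟩
      have h5 : 0 ≤ K * W := mul_nonneg hK.le (by linarith)
      have h6 : 0 ≤ ν2 / 2 * W := mul_nonneg (by linarith) (by linarith)
      linarith)
    refine h1.trans (Real.exp_le_exp.2 ?_)
    nlinarith
  obtain ⟨g, hg1, hg2⟩ := hcon T (by rw [sub_self, abs_zero]; linarith)
  refine H1 T ((le_max_left _ _).trans hT) (by rw [← hW]; exact hval) g (hg1.mono ?_) hg2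
  rw [← hW]
  refine mul_le_mul_of_nonneg_right (min_le_left _ _) ?_
  rw [hW]
  exact Real.log_nonneg (by linarith)

end Pool.Agent.Q97.PA
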